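import Mathlib

/-!
# Twenty Questions: the splitting lemma

`Z` is a finite set of integers which contains `0, 1, ..., 2 ^ n - 1`. Every set `C` of at least two
numbers in `0, ..., 2 ^ n - 1` is split into two parts which are not too small by the preimage of `Z`
under a suitable affine map with integer coefficients.
-/

set_option autoImplicit false

namespace Pool.Agent.TQ

open Finset
open scoped Classical

/-- the number of `t < 2 ^ s` with `r + d t ∈ Z` -/
noncomputable def cnt (Z : ℤ → Prop) (r d : ℤ) (s : ℕ) : ℕ :=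
  ((range (2 ^ s)).filter fun t : ℕ => Z (r + d * t)).card

theorem cnt_le (Z : ℤ → Prop) (r d : ℤ) (s : ℕ) : cnt Z r d s ≤ 2 ^ s := by
  have := card_filter_le (range (2 ^ s)) (fun t : ℕ => Z (r + d * t))
  simpa [cnt] using this

theorem cnt_mono (Z : ℤ → Prop) (r d : ℤ) {s s' : ℕ} (h : s ≤ s') :
    cnt Z r d s ≤ cnt Z r d s' := by
  apply card_le_card
  apply filter_subset_filter
  intro t ht
  rw [mem_range] at ht ⊢
  exact lt_of_lt_of_le ht (Nat.pow_le_pow_right (by norm_num) h)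

theorem cnt_bound (Z : ℤ → Prop) (K : ℕ)
    (hfin : ∀ F : Finset ℤ, (∀ z ∈ F, Z z) → 4 * F.card ≤ 2 ^ K) (r d : ℤ) (hd : d ≠ 0) (s : ℕ) :
    4 * cnt Z r d s ≤ 2 ^ K := by
  have h := hfin (((range (2 ^ s)).filter fun t : ℕ => Z (r + d * t)).image
    fun t : ℕ => r + d * t) ?_
  · rw [card_image_of_injective] at h
    · exact h
    · intro t t' ht
      have h1 : r + d * (t : ℤ) = r + d * (t' : ℤ) := ht
      have h2 : d * (t : ℤ) = d * (t' : ℤ) := by linarith
      have h3 := mul_left_cancel₀ hd h2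
      exact_mod_cast h3
  · intro z hz
    rw [mem_image] at hz
    obtain ⟨t, ht, rfl⟩ := hz
    exact (mem_filter.1 ht).2

/-- The scale at which a residue class is neither nearly full nor nearly empty. -/
theorem cls (Z : ℤ → Prop) (K : ℕ)
    (hfin : ∀ F : Finset ℤ, (∀ z ∈ F, Z z) → 4 * F.card ≤ 2 ^ K) (r d : ℤ) (hd : d ≠ 0)
    (hr : Z r) :
    ∃ s, s ≤ K ∧ 3 * 4 ^ s ≤ 32 * (cnt Z r d s * (2 ^ s - cnt Z r d s)) := by
  have hex : ∃ s, 4 * cnt Z r d s ≤ 3 * 2 ^ s := by
    refine ⟨K, ?_⟩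
    have := cnt_bound Z K hfin r d hd K
    omega
  have hK : 4 * cnt Z r d K ≤ 3 * 2 ^ K := by
    have := cnt_bound Z K hfin r d hd K
    omega
  refine ⟨Nat.find hex, Nat.find_min' hex hK, ?_⟩
  set s := Nat.find hex with hs
  have h1 : 4 * cnt Z r d s ≤ 3 * 2 ^ s := Nat.find_spec hex
  have h0 : s ≠ 0 := by
    intro h0
    rw [h0] at h1
    have : cnt Z r d 0 = 1 := by
      simp [cnt, hr, filter_singleton]
    omega
  obtain ⟨s', hs'⟩ := Nat.exists_eq_succ_of_ne_zero h0
  have h2 : ¬ 4 * cnt Z r d s' ≤ 3 * 2 ^ s' := Nat.find_min hex (by omega)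
  have h3 : cnt Z r d s' ≤ cnt Z r d s := cnt_mono Z r d (by omega)
  have h4 : 2 ^ s = 2 * 2 ^ s' := by rw [hs', Nat.succ_eq_add_one, pow_succ]; ring
  have h5 : 3 * 2 ^ s ≤ 8 * cnt Z r d s := by omega
  have h6 : 2 ^ s ≤ 4 * (2 ^ s - cnt Z r d s) := by omega
  have h7 : (4 : ℕ) ^ s = 2 ^ s * 2 ^ s := by
    rw [← mul_pow]; norm_num
  calc 3 * 4 ^ s = (3 * 2 ^ s) * 2 ^ s := by rw [h7]; ring
    _ ≤ (8 * cnt Z r d s) * (4 * (2 ^ s - cnt Z r d s)) := Nat.mul_le_mul h5 h6
    _ = _ := by ring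

/-- the sample space at scale `s` -/
noncomputable def Om (l s : ℕ) : Finset (ℤ × ℤ) :=
  Ioo (-(2 : ℤ) ^ s) (2 ^ s) ×ˢ Ioo (-(2 * 2 ^ (s + l) : ℤ)) (4 * 2 ^ (s + l))

theorem Om_card (l s : ℕ) : (Om l s).card ≤ 12 * 4 ^ s * 2 ^ l := by
  have h1 : (Ioo (-(2 : ℤ) ^ s) (2 ^ s)).card ≤ 2 * 2 ^ s := by
    rw [Int.card_Ioo]
    have : (0 : ℤ) < 2 ^ s := by positivity
    have h2 : ((2 : ℤ) ^ s - -2 ^ s - 1) ≤ ((2 * 2 ^ s : ℕ) : ℤ) := by
      push_cast; linarith
    calc ((2 : ℤ) ^ s - -2 ^ s - 1).toNat ≤ ((2 * 2 ^ s : ℕ) : ℤ).toNat := Int.toNat_le_toNat h2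
      _ = _ := Int.toNat_natCast _
  have h3 : (Ioo (-(2 * 2 ^ (s + l) : ℤ)) (4 * 2 ^ (s + l))).card ≤ 6 * 2 ^ (s + l) := by
    rw [Int.card_Ioo]
    have h2 : ((4 : ℤ) * 2 ^ (s + l) - -(2 * 2 ^ (s + l)) - 1) ≤ ((6 * 2 ^ (s + l) : ℕ) : ℤ) := by
      push_cast; linarith
    calc ((4 : ℤ) * 2 ^ (s + l) - -(2 * 2 ^ (s + l)) - 1).toNat
        ≤ ((6 * 2 ^ (s + l) : ℕ) : ℤ).toNat := Int.toNat_le_toNat h2
      _ = _ := Int.toNat_natCast _
  rw [Om, card_product]
  calc _ ≤ (2 * 2 ^ s) * (6 * 2 ^ (s + l)) := Nat.mul_le_mul h1 h3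
    _ = 12 * (2 ^ s * 2 ^ s) * 2 ^ l := by rw [pow_add]; ring
    _ = _ := by rw [← mul_pow]; norm_num

/-- the pairs `(a, b)` at scale `s` which separate `j` and `j'` -/
noncomputable def sep (Z : ℤ → Prop) (l s : ℕ) (x x' : ℤ) : Finset (ℤ × ℤ) :=
  (Om l s).filter fun p => Z (p.1 * x + p.2) ∧ ¬ Z (p.1 * x' + p.2)

theorem sep_card (Z : ℤ → Prop) (l s : ℕ) (x x' : ℤ) (d : ℕ) (hd : x' - x = d)
    (hd0 : 0 < d) (h2 : d < 2 * 2 ^ l) (hx : |x| < 2 * 2 ^ l) :
    ∑ r ∈ range d, cnt Z r d s * (2 ^ s - cnt Z r d s) ≤ (sep Z l s x x').card := by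
  have e1 : ∀ r : ℕ, cnt Z r d s * (2 ^ s - cnt Z r d s) =
      (((range (2 ^ s)).filter fun t : ℕ => Z (r + d * t)) ×ˢ
        ((range (2 ^ s)).filter fun t : ℕ => ¬ Z (r + d * t))).card := by
    intro r
    rw [card_product]
    congr 1
    have := card_filter_add_card_filter_not (s := range (2 ^ s)) (fun t : ℕ => Z (r + d * t))
    rw [card_range] at this
    unfold cnt
    omega
  simp_rw [e1]
  rw [← card_sigma]
  apply card_le_card_of_injOn (fun q : (_ : ℕ) × (ℕ × ℕ) =>
    (((q.2.2 : ℤ) - q.2.1, (q.1 : ℤ) + d * q.2.1 - ((q.2.2 : ℤ) - q.2.1) * x) : ℤ × ℤ))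
  · rintro ⟨r, t, t'⟩ hq
    simp only [coe_sigma, Set.mem_sigma_iff, mem_coe, mem_range, mem_product, mem_filter] at hq
    obtain ⟨hr, ⟨ht, hZ⟩, ht', hZ'⟩ := hq
    simp only [sep, Om, coe_filter, mem_product, mem_Ioo, Set.mem_ofPred_eq]
    have p0 : (0 : ℤ) < 2 ^ s := by positivity
    have pl : (0 : ℤ) < 2 ^ l := by positivity
    have t1 : (t : ℤ) < 2 ^ s := by exact_mod_cast ht
    have t1' : (t' : ℤ) < 2 ^ s := by exact_mod_cast ht'
    have t0 : (0 : ℤ) ≤ t := by positivity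
    have t0' : (0 : ℤ) ≤ t' := by positivity
    have hrd : (r : ℤ) < d := by exact_mod_cast hr
    have hr0 : (0 : ℤ) ≤ r := by positivity
    have hdl : (d : ℤ) < 2 * 2 ^ l := by exact_mod_cast h2
    have hd1 : (0 : ℤ) < d := by exact_mod_cast hd0
    have ha : |(t' : ℤ) - t| < 2 ^ s := by
      rw [abs_lt]; constructor <;> linarith
    have hu : (r : ℤ) + d * t < 2 * 2 ^ (s + l) := by
      calc (r : ℤ) + d * t < d + d * t := by linarith
        _ = d * (t + 1) := by ring
        _ ≤ d * 2 ^ s := by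
            apply mul_le_mul_of_nonneg_left _ hd1.le
            linarith
        _ ≤ (2 * 2 ^ l) * 2 ^ s := by
            apply mul_le_mul_of_nonneg_right hdl.le p0.le
        _ = _ := by rw [pow_add]; ring
    have hu0 : (0 : ℤ) ≤ (r : ℤ) + d * t := by positivity
    have hax : |((t' : ℤ) - t) * x| < 2 * 2 ^ (s + l) := by
      rw [abs_mul]
      calc |(t' : ℤ) - t| * |x| ≤ 2 ^ s * |x| :=
            mul_le_mul_of_nonneg_right ha.le (abs_nonneg _)
        _ < 2 ^ s * (2 * 2 ^ l) := by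
            apply mul_lt_mul_of_pos_left hx p0
        _ = _ := by rw [pow_add]; ring
    rw [abs_lt] at ha hax
    refine ⟨⟨⟨ha.1, ha.2⟩, ?_, ?_⟩, ?_, ?_⟩
    · linarith [hax.2]
    · linarith [hax.1]
    · have : ((t' : ℤ) - t) * x + ((r : ℤ) + d * t - ((t' : ℤ) - t) * x) = r + d * t := by ring
      rw [this]; exact hZ
    · have : ((t' : ℤ) - t) * x' + ((r : ℤ) + d * t - ((t' : ℤ) - t) * x) = r + d * t' := by
        have : x' = x + d := by linarith
        rw [this]; ring
      rw [this]; exact hZ'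
  · rintro ⟨r, t, t'⟩ hq ⟨r₂, t₂, t₂'⟩ hq₂ he
    simp only [coe_sigma, Set.mem_sigma_iff, mem_coe, mem_range, mem_product, mem_filter] at hq hq₂
    simp only [Prod.mk.injEq] at he
    obtain ⟨he1, he2⟩ := he
    rw [he1] at he2
    have he3 : (r : ℤ) + d * t = r₂ + d * t₂ := by linarith
    have he4 : r + d * t = r₂ + d * t₂ := by exact_mod_cast he3
    have hr := hq.1
    have hr₂ := hq₂.1
    have m1 : (r + d * t) % d = r := by
      rw [Nat.add_mul_mod_self_left, Nat.mod_eq_of_lt hr]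
    have m2 : (r₂ + d * t₂) % d = r₂ := by
      rw [Nat.add_mul_mod_self_left, Nat.mod_eq_of_lt hr₂]
    have er : r = r₂ := by rw [← m1, he4, m2]
    subst er
    have et : t = t₂ := by
      have : d * t = d * t₂ := by omega
      exact Nat.eq_of_mul_eq_mul_left hd0 this
    subst et
    have et' : t' = t₂' := by
      have : (t' : ℤ) = t₂' := by linarith
      exact_mod_cast this
    subst et'
    rfl

theorem sep_sum (Z : ℤ → Prop) (K n : ℕ) (h0 : ∀ r : ℕ, r < 2 ^ n → Z r)
    (hfin : ∀ F : Finset ℤ, (∀ z ∈ F, Z z) → 4 * F.card ≤ 2 ^ K)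
    (l : ℕ) (x x' : ℤ) (d : ℕ) (hd : x' - x = d) (hdn : d ≤ 2 ^ n)
    (h1 : 2 ^ l ≤ 2 * d) (h2 : d < 2 * 2 ^ l) (hx : |x| < 2 * 2 ^ l) :
    3 * 4 ^ K * 2 ^ l ≤ 64 * ∑ s ∈ range (K + 1), 4 ^ (K - s) * (sep Z l s x x').card := by
  have hd0 : 0 < d := by
    have : 0 < 2 ^ l := by positivity
    omega
  have key : ∀ r ∈ range d, 3 * 4 ^ K ≤
      32 * ∑ s ∈ range (K + 1), 4 ^ (K - s) * (cnt Z r d s * (2 ^ s - cnt Z r d s)) := by
    intro r hr
    rw [mem_range] at hr
    obtain ⟨s, hs, hc⟩ := cls Z K hfin r d (by exact_mod_cast hd0.ne') (h0 r (by omega))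
    calc 3 * 4 ^ K = 4 ^ (K - s) * (3 * 4 ^ s) := by
          have : (4 : ℕ) ^ K = 4 ^ (K - s) * 4 ^ s := by rw [← pow_add]; congr 1; omega
          rw [this]; ring
      _ ≤ 4 ^ (K - s) * (32 * (cnt Z r d s * (2 ^ s - cnt Z r d s))) :=
          Nat.mul_le_mul_left _ hc
      _ = 32 * (4 ^ (K - s) * (cnt Z r d s * (2 ^ s - cnt Z r d s))) := by ring
      _ ≤ _ := by
          apply Nat.mul_le_mul_left
          exact single_le_sum (f := fun s => 4 ^ (K - s) * (cnt Z r d s * (2 ^ s - cnt Z r d s)))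
            (fun _ _ => Nat.zero_le _) (mem_range.2 (by omega))
  calc 3 * 4 ^ K * 2 ^ l ≤ 3 * 4 ^ K * (2 * d) := Nat.mul_le_mul_left _ h1
    _ = 2 * ∑ r ∈ range d, 3 * 4 ^ K := by rw [sum_const, card_range, smul_eq_mul]; ring
    _ ≤ 2 * ∑ r ∈ range d, 32 * ∑ s ∈ range (K + 1),
          4 ^ (K - s) * (cnt Z r d s * (2 ^ s - cnt Z r d s)) :=
        Nat.mul_le_mul_left _ (sum_le_sum key)
    _ = 64 * ∑ s ∈ range (K + 1), 4 ^ (K - s) *
          ∑ r ∈ range d, cnt Z r d s * (2 ^ s - cnt Z r d s) := by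
        rw [← mul_sum, sum_comm]
        simp_rw [mul_sum]
        apply sum_congr rfl
        intro s _
        apply sum_congr rfl
        intro r _
        ring
    _ ≤ _ := by
        apply Nat.mul_le_mul_left
        apply sum_le_sum
        intro s _
        exact Nat.mul_le_mul_left _ (sep_card Z l s x x' d hd hd0 h2 hx)

/-! ### choice of the window -/

/-- the elements of `C` in the window `[w, w + 2 ^ l)` -/
def win (C : Finset ℕ) (l w : ℕ) : Finset ℕ := C.filter fun j => w ≤ j ∧ j < w + 2 ^ l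

/-- the largest number of elements of `C` in a window of length `2 ^ l` -/
def mx (C : Finset ℕ) (n l : ℕ) : ℕ := (range (2 ^ n)).sup fun w => (win C l w).card

theorem le_mx (C : Finset ℕ) (n l w : ℕ) (hw : w < 2 ^ n) : (win C l w).card ≤ mx C n l :=
  le_sup (f := fun w => (win C l w).card) (mem_range.2 hw)

theorem mx_eq (C : Finset ℕ) (n l : ℕ) : ∃ w < 2 ^ n, (win C l w).card = mx C n l := by
  obtain ⟨w, hw, h⟩ := exists_mem_eq_sup (range (2 ^ n)) (nonempty_range_iff.2 (by positivity))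
    (fun w => (win C l w).card)
  exact ⟨w, mem_range.1 hw, h.symm⟩

theorem exists_win (C : Finset ℕ) (n : ℕ) (hC : ∀ j ∈ C, j < 2 ^ n) (h2 : 2 ≤ C.card) :
    ∃ l, C.card ≤ 2 * n * (mx C n (l + 1) - mx C n l) ∧ C.card ≤ 2 * mx C n (l + 1) := by
  have hn : 0 < n := by
    rcases Nat.eq_zero_or_pos n with rfl | h
    · exfalso
      have : C ⊆ {0} := by
        intro j hj
        have := hC j hj
        simp at this
        simp [this]
      have := card_le_card this
      simp at this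
      omega
    · exact h
  by_contra hcon
  push Not at hcon
  have hmn : C.card ≤ mx C n n := by
    refine le_trans ?_ (le_mx C n n 0 (by positivity))
    apply card_le_card
    intro j hj
    rw [win, mem_filter]
    exact ⟨hj, by omega, by simpa using hC j hj⟩
  have hm0 : mx C n 0 ≤ 1 := by
    obtain ⟨w, _, hw⟩ := mx_eq C n 0
    rw [← hw, card_le_one]
    intro a ha b hb
    rw [win, mem_filter] at ha hb
    omega
  have key : ∀ t, t ≤ n → 2 * n * C.card ≤ 2 * n * mx C n (n - t) + t * C.card := by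
    intro t
    induction t with
    | zero =>
      intro _
      simp only [Nat.sub_zero, zero_mul, add_zero]
      exact Nat.mul_le_mul_left _ hmn
    | succ t ih =>
      intro ht
      have h1 := ih (by omega)
      have e : n - t = (n - (t + 1)) + 1 := by omega
      rw [e] at h1
      have h3 : C.card ≤ 2 * mx C n (n - (t + 1) + 1) := by
        have h4 : t * C.card ≤ n * C.card := Nat.mul_le_mul_right _ (by omega)
        have h5 : n * C.card ≤ n * (2 * mx C n (n - (t + 1) + 1)) := by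
          have e2 : 2 * n * C.card = n * C.card + n * C.card := by ring
          have e3 : n * (2 * mx C n (n - (t + 1) + 1)) = 2 * n * mx C n (n - (t + 1) + 1) := by
            ring
          omega
        exact Nat.le_of_mul_le_mul_left h5 hn
      have h6 : 2 * n * (mx C n (n - (t + 1) + 1) - mx C n (n - (t + 1))) < C.card := by
        by_contra hge
        push Not at hge
        have := hcon (n - (t + 1)) hge
        omega
      rw [Nat.mul_sub] at h6
      have h7 : (t + 1) * C.card = t * C.card + C.card := by ring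
      omega
  have h1 := key n le_rfl
  rw [Nat.sub_self] at h1
  have h3 : 2 * n * mx C n 0 ≤ 2 * n * 1 := Nat.mul_le_mul_left _ hm0
  have h4 : n * 2 ≤ n * C.card := Nat.mul_le_mul_left _ h2
  have e2 : 2 * n * C.card = n * C.card + n * C.card := by ring
  -- equality is possible only if `C.card = 2`, `n = ...`; use the last step once more
  have h5 : 2 * n * (mx C n 1 - mx C n 0) < C.card := by
    have hk := key (n - 1) (by omega)
    have e3 : n - (n - 1) = 0 + 1 := by omega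
    rw [e3] at hk
    have h6 : C.card ≤ 2 * mx C n (0 + 1) := by
      have h7 : (n - 1) * C.card ≤ n * C.card := Nat.mul_le_mul_right _ (by omega)
      have h8 : n * C.card ≤ n * (2 * mx C n (0 + 1)) := by
        have e4 : n * (2 * mx C n (0 + 1)) = 2 * n * mx C n (0 + 1) := by ring
        omega
      exact Nat.le_of_mul_le_mul_left h8 hn
    by_contra hge
    push Not at hge
    have := hcon 0 hge
    omega
  have hk := key (n - 1) (by omega)
  have e3 : n - (n - 1) = 1 := by omega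
  rw [e3] at hk
  rw [Nat.mul_sub] at h5
  have e5 : n * C.card = (n - 1) * C.card + C.card := by
    obtain ⟨n', rfl⟩ : ∃ n', n = n' + 1 := ⟨n - 1, by omega⟩
    simp only [Nat.add_sub_cancel]
    ring
  omega

/-- the pairs in the window at distance at least `2 ^ (l - 1)` -/
def prs (C : Finset ℕ) (l w : ℕ) : Finset (ℕ × ℕ) :=
  (win C (l + 1) w ×ˢ win C (l + 1) w).filter fun p => p.1 < p.2 ∧ 2 ^ l ≤ 2 * (p.2 - p.1)

theorem exists_prs (C : Finset ℕ) (n : ℕ) (hC : ∀ j ∈ C, j < 2 ^ n) (h2 : 2 ≤ C.card) :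
    ∃ l w, C.card * C.card ≤ 8 * n * (prs C l w).card := by
  obtain ⟨l, h3, h4⟩ := exists_win C n hC h2
  obtain ⟨w, hw, hmw⟩ := mx_eq C n (l + 1)
  refine ⟨l, w, ?_⟩
  set W := win C (l + 1) w with hW
  have hWC : ∀ j ∈ W, j ∈ C := fun j hj => (mem_filter.1 hj).1
  -- ordered pairs
  have h5 : W.card * (W.card - mx C n l) ≤
      ((W ×ˢ W).filter fun p : ℕ × ℕ => 2 ^ l ≤ 2 * (p.2 - p.1) ∨ 2 ^ l ≤ 2 * (p.1 - p.2)).card := by
    have e1 : ((W ×ˢ W).filter fun p : ℕ × ℕ => 2 ^ l ≤ 2 * (p.2 - p.1) ∨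
        2 ^ l ≤ 2 * (p.1 - p.2)).card = ∑ j ∈ W, (W.filter fun j' =>
          2 ^ l ≤ 2 * (j' - j) ∨ 2 ^ l ≤ 2 * (j - j')).card := by
      rw [card_filter, sum_product]
      apply sum_congr rfl
      intro j _
      rw [card_filter]
    rw [e1]
    calc W.card * (W.card - mx C n l) = ∑ j ∈ W, (W.card - mx C n l) := by
          rw [sum_const, smul_eq_mul]
      _ ≤ _ := by
          apply sum_le_sum
          intro j hj
          have h6 := card_filter_add_card_filter_not (s := W)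
            (fun j' => 2 ^ l ≤ 2 * (j' - j) ∨ 2 ^ l ≤ 2 * (j - j'))
          have h7 : (W.filter fun j' => ¬ (2 ^ l ≤ 2 * (j' - j) ∨ 2 ^ l ≤ 2 * (j - j'))).card ≤
              mx C n l := by
            have hj2 := hC j (hWC j hj)
            refine le_trans (card_le_card ?_) (le_mx C n l (j - 2 ^ l / 2)
              (lt_of_le_of_lt (Nat.sub_le _ _) hj2))
            intro j' hj'
            rw [mem_filter] at hj'
            rw [win, mem_filter]
            refine ⟨hWC j' hj'.1, ?_⟩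
            have h8 := hj'.2
            push Not at h8
            have hpos : 0 < 2 ^ l := by positivity
            rcases Nat.eq_zero_or_pos l with h0 | h0
            · subst h0
              simp only [pow_zero] at h8 ⊢
              omega
            · have hev : 2 ^ l = 2 * (2 ^ l / 2) := by
                obtain ⟨l', rfl⟩ : ∃ l', l = l' + 1 := ⟨l - 1, by omega⟩
                rw [pow_succ]
                omega
              omega
          omega
  have h6 : ((W ×ˢ W).filter fun p : ℕ × ℕ => 2 ^ l ≤ 2 * (p.2 - p.1) ∨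
      2 ^ l ≤ 2 * (p.1 - p.2)).card ≤ 2 * (prs C l w).card := by
    have hpos : 0 < 2 ^ l := by positivity
    have e1 : ((W ×ˢ W).filter fun p : ℕ × ℕ => 2 ^ l ≤ 2 * (p.2 - p.1) ∨
        2 ^ l ≤ 2 * (p.1 - p.2)) ⊆ prs C l w ∪ (prs C l w).image Prod.swap := by
      rintro ⟨a, b⟩ h
      simp only [mem_filter, mem_product] at h
      obtain ⟨⟨ha, hb⟩, h | h⟩ := h
      · rw [mem_union]; left
        rw [prs, mem_filter, mem_product]
        exact ⟨⟨ha, hb⟩, by simp only; omega, h⟩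
      · rw [mem_union]; right
        rw [mem_image]
        refine ⟨(b, a), ?_, rfl⟩
        rw [prs, mem_filter, mem_product]
        exact ⟨⟨hb, ha⟩, by simp only; omega, h⟩
    calc _ ≤ _ := card_le_card e1
      _ ≤ _ := card_union_le _ _
      _ ≤ (prs C l w).card + (prs C l w).card := Nat.add_le_add_left card_image_le _
      _ = _ := by ring
  rw [← hmw] at h3 h4
  have h7 : C.card * C.card ≤ (2 * n * (W.card - mx C n l)) * (2 * W.card) := Nat.mul_le_mul h3 h4
  calc C.card * C.card ≤ (2 * n * (W.card - mx C n l)) * (2 * W.card) := h7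
    _ = 4 * n * (W.card * (W.card - mx C n l)) := by ring
    _ ≤ 4 * n * (2 * (prs C l w).card) := Nat.mul_le_mul_left _ (h5.trans h6)
    _ = _ := by ring

/-- **The splitting lemma.** -/
theorem split (Z : ℤ → Prop) (K n : ℕ) (h0 : ∀ r : ℕ, r < 2 ^ n → Z r)
    (hfin : ∀ F : Finset ℤ, (∀ z ∈ F, Z z) → 4 * F.card ≤ 2 ^ K)
    (C : Finset ℕ) (hC : ∀ j ∈ C, j < 2 ^ n) (h2 : 2 ≤ C.card) :
    ∃ a b : ℤ, C.card * C.card ≤ 2048 * n * (K + 1) *
      ((C.filter fun j : ℕ => Z (a * j + b)).card * (C.filter fun j : ℕ => ¬ Z (a * j + b)).card) := by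
  obtain ⟨l, w, hP⟩ := exists_prs C n hC h2
  -- the number of pairs separated by `(a, b)`
  set P := prs C l w with hPdef
  let N : ℤ × ℤ → ℕ := fun p => (P.filter fun q : ℕ × ℕ =>
    Z (p.1 * ((q.1 : ℤ) - w) + p.2) ∧ ¬ Z (p.1 * ((q.2 : ℤ) - w) + p.2)).card
  have key : ∃ p : ℤ × ℤ, P.card ≤ 256 * (K + 1) * N p := by
    by_contra hcon
    push Not at hcon
    have hPpos : 0 < P.card := lt_of_le_of_lt (Nat.zero_le _) (hcon (0, 0))
    have h3 : ∀ q ∈ P, 3 * 4 ^ K * 2 ^ l ≤ 64 * ∑ s ∈ range (K + 1), 4 ^ (K - s) *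
        (sep Z l s ((q.1 : ℤ) - w) ((q.2 : ℤ) - w)).card := by
      rintro ⟨j, j'⟩ hq
      simp only [hPdef, prs, win, mem_filter, mem_product] at hq
      obtain ⟨⟨⟨hj, hj1, hj2⟩, hj', hj3, hj4⟩, hlt, hd⟩ := hq
      have hb := hC j' hj'
      rw [pow_succ] at hj2 hj4
      apply sep_sum Z K n h0 hfin l ((j : ℤ) - w) ((j' : ℤ) - w) (j' - j)
      · push_cast [Nat.cast_sub hlt.le]
        ring
      · omega
      · exact hd
      · omega
      · have hj2' : (j : ℤ) < w + 2 ^ l * 2 := by exact_mod_cast hj2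
        have hj1' : (w : ℤ) ≤ j := by exact_mod_cast hj1
        have : (0 : ℤ) < 2 ^ l := by positivity
        rw [abs_lt]
        constructor <;> linarith
    have h4 : P.card * (3 * 4 ^ K * 2 ^ l) ≤ ∑ s ∈ range (K + 1), ∑ p ∈ Om l s,
        64 * (4 ^ (K - s) * N p) := by
      calc P.card * (3 * 4 ^ K * 2 ^ l) = ∑ q ∈ P, 3 * 4 ^ K * 2 ^ l := by
            rw [sum_const, smul_eq_mul]
        _ ≤ ∑ q ∈ P, 64 * ∑ s ∈ range (K + 1), 4 ^ (K - s) *
            (sep Z l s ((q.1 : ℤ) - w) ((q.2 : ℤ) - w)).card := sum_le_sum h3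
        _ = ∑ s ∈ range (K + 1), ∑ q ∈ P, 64 * (4 ^ (K - s) *
            (sep Z l s ((q.1 : ℤ) - w) ((q.2 : ℤ) - w)).card) := by
            rw [sum_comm]
            simp_rw [mul_sum]
        _ = _ := by
            apply sum_congr rfl
            intro s _
            have e1 : ∀ q : ℕ × ℕ, (sep Z l s ((q.1 : ℤ) - w) ((q.2 : ℤ) - w)).card =
                ∑ p ∈ Om l s, if Z (p.1 * ((q.1 : ℤ) - w) + p.2) ∧
                  ¬ Z (p.1 * ((q.2 : ℤ) - w) + p.2) then 1 else 0 := by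
              intro q
              rw [sep, card_filter]
            have e2 : ∀ p, N p = ∑ q ∈ P, if Z (p.1 * ((q.1 : ℤ) - w) + p.2) ∧
                  ¬ Z (p.1 * ((q.2 : ℤ) - w) + p.2) then 1 else 0 := by
              intro p
              exact card_filter _ _
            simp_rw [e1, e2, mul_sum]
            rw [sum_comm]
    have h5 : 256 * (K + 1) * ∑ s ∈ range (K + 1), ∑ p ∈ Om l s, 64 * (4 ^ (K - s) * N p) ≤
        ∑ s ∈ range (K + 1), ∑ p ∈ Om l s, 64 * (4 ^ (K - s) * (P.card - 1)) := by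
      rw [mul_sum]
      apply sum_le_sum
      intro s _
      rw [mul_sum]
      apply sum_le_sum
      intro p _
      have := hcon p
      calc 256 * (K + 1) * (64 * (4 ^ (K - s) * N p))
          = 64 * (4 ^ (K - s) * (256 * (K + 1) * N p)) := by ring
        _ ≤ _ := by
          apply Nat.mul_le_mul_left
          apply Nat.mul_le_mul_left
          omega
    have h6 : ∑ s ∈ range (K + 1), ∑ p ∈ Om l s, 64 * (4 ^ (K - s) * (P.card - 1)) ≤
        (K + 1) * (768 * 4 ^ K * 2 ^ l * (P.card - 1)) := by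
      calc _ ≤ ∑ s ∈ range (K + 1), 768 * 4 ^ K * 2 ^ l * (P.card - 1) := by
            apply sum_le_sum
            intro s hs
            rw [mem_range] at hs
            rw [sum_const, smul_eq_mul]
            calc (Om l s).card * (64 * (4 ^ (K - s) * (P.card - 1)))
                ≤ (12 * 4 ^ s * 2 ^ l) * (64 * (4 ^ (K - s) * (P.card - 1))) :=
                  Nat.mul_le_mul_right _ (Om_card l s)
              _ = 768 * (4 ^ (K - s) * 4 ^ s) * 2 ^ l * (P.card - 1) := by ring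
              _ = _ := by
                  rw [← pow_add]
                  congr 4
                  omega
        _ = _ := by rw [sum_const, card_range, smul_eq_mul]
    have h7 : 256 * (K + 1) * (P.card * (3 * 4 ^ K * 2 ^ l)) ≤
        (K + 1) * (768 * 4 ^ K * 2 ^ l * (P.card - 1)) :=
      le_trans (Nat.mul_le_mul_left _ h4) (le_trans h5 h6)
    have h8 : (K + 1) * (768 * 4 ^ K * 2 ^ l) * P.card ≤
        (K + 1) * (768 * 4 ^ K * 2 ^ l) * (P.card - 1) := by
      calc (K + 1) * (768 * 4 ^ K * 2 ^ l) * P.card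
          = 256 * (K + 1) * (P.card * (3 * 4 ^ K * 2 ^ l)) := by ring
        _ ≤ _ := h7
        _ = _ := by ring
    have h9 := Nat.le_of_mul_le_mul_left h8 (by positivity)
    omega
  obtain ⟨⟨a, b⟩, hp⟩ := key
  refine ⟨a, b - a * w, ?_⟩
  have h3 : N (a, b) ≤ (C.filter fun j : ℕ => Z (a * j + (b - a * w))).card *
      (C.filter fun j : ℕ => ¬ Z (a * j + (b - a * w))).card := by
    rw [← card_product]
    apply card_le_card
    rintro ⟨j, j'⟩ hq
    simp only [hPdef, prs, win, mem_filter, mem_product] at hq ⊢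
    obtain ⟨⟨⟨⟨hj, _⟩, hj', _⟩, _⟩, hZ, hZ'⟩ := hq
    refine ⟨⟨hj, ?_⟩, hj', ?_⟩
    · have : a * (j : ℤ) + (b - a * w) = a * ((j : ℤ) - w) + b := by ring
      rw [this]; exact hZ
    · have : a * (j' : ℤ) + (b - a * w) = a * ((j' : ℤ) - w) + b := by ring
      rw [this]; exact hZ'
  calc C.card * C.card ≤ 8 * n * P.card := hP
    _ ≤ 8 * n * (256 * (K + 1) * N (a, b)) := Nat.mul_le_mul_left _ hp
    _ ≤ 8 * n * (256 * (K + 1) * ((C.filter fun j : ℕ => Z (a * j + (b - a * w))).card *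
      (C.filter fun j : ℕ => ¬ Z (a * j + (b - a * w))).card)) := by gcongr
    _ = _ := by ring

end Pool.Agent.TQ
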