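import Pool.Agent.Lib_helper12.TQ.Defs
import Pool.Agent.Lib_helper12.TQ.Split

/-!
# Building computation trees
-/

set_option autoImplicit false

namespace Pool.Agent.TQ

open Polynomial
open scoped Classical

variable {K : Type} [Field K] {n : ℕ}

/-- For all states `v` which may occur (`Φ x v`), a tree of depth at most `d` decides `S`. -/
def Dec (m : ℕ) (Φ : (Fin n → K) → (Fin m → K) → Prop) (S : Set (Fin n → K)) (d : ℕ) : Prop :=
  ∃ T : CTree K n m, T.depth ≤ d ∧ ∀ x v, Φ x v → (T.Acc x v ↔ x ∈ S)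

/-- `S` can be decided from every state. -/
def DecAll (S : Set (Fin n → K)) (d : ℕ) : Prop := ∀ m, Dec m (fun _ _ => True) S d

theorem Dec.mono {m : ℕ} {Φ : (Fin n → K) → (Fin m → K) → Prop} {S : Set (Fin n → K)} {d d' : ℕ}
    (h : Dec m Φ S d) (hd : d ≤ d') : Dec m Φ S d' := by
  obtain ⟨T, hT, h⟩ := h
  exact ⟨T, hT.trans hd, h⟩

theorem DecAll.mono {S : Set (Fin n → K)} {d d' : ℕ} (h : DecAll S d) (hd : d ≤ d') :
    DecAll S d' := fun m => (h m).mono hd

theorem DecAll.dec {S : Set (Fin n → K)} {d : ℕ} (h : DecAll S d) {m : ℕ}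
    (Φ : (Fin n → K) → (Fin m → K) → Prop) : Dec m Φ S d := by
  obtain ⟨T, hT, h⟩ := h m
  exact ⟨T, hT, fun x v _ => h x v trivial⟩

theorem decAll_empty : DecAll (∅ : Set (Fin n → K)) 1 := fun m =>
  ⟨.leaf false, le_rfl, fun x v _ => by simp [CTree.Acc]⟩

theorem decAll_univ : DecAll (Set.univ : Set (Fin n → K)) 1 := fun m =>
  ⟨.leaf true, le_rfl, fun x v _ => by simp [CTree.Acc]⟩

/-- A computation node. -/
theorem Dec.comp {m : ℕ} {Φ : (Fin n → K) → (Fin m → K) → Prop} {S : Set (Fin n → K)} {d : ℕ}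
    (o : Op) (t t' : Term K n m)
    (h : Dec (m + 1) (fun x w => Φ x (fun j => w (Fin.castSucc j)) ∧
      w (Fin.last m) = o.app (t.ev x fun j => w (Fin.castSucc j))
        (t'.ev x fun j => w (Fin.castSucc j))) S d) :
    Dec m Φ S (d + 1) := by
  obtain ⟨T, hT, h⟩ := h
  refine ⟨.comp o t t' T, by simpa [CTree.depth] using hT, fun x v hv => ?_⟩
  simp only [CTree.Acc]
  apply h
  simp only [Fin.snoc_castSucc, Fin.snoc_last]
  exact ⟨hv, trivial⟩

/-- A branching node. -/
theorem Dec.branch {m : ℕ} {Φ : (Fin n → K) → (Fin m → K) → Prop} {S : Set (Fin n → K)} {d : ℕ}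
    (t t' : Term K n m)
    (h : Dec m (fun x v => Φ x v ∧ t.ev x v = t'.ev x v) S d)
    (h' : Dec m (fun x v => Φ x v ∧ t.ev x v ≠ t'.ev x v) S d) :
    Dec m Φ S (d + 1) := by
  obtain ⟨T, hT, h⟩ := h
  obtain ⟨T', hT', h'⟩ := h'
  refine ⟨.branch t t' T T', by simp [CTree.depth, hT, hT'], fun x v hv => ?_⟩
  simp only [CTree.Acc]
  by_cases he : t.ev x v = t'.ev x v
  · simp only [he, true_and, ne_eq, not_true_eq_false, false_and, or_false]
    exact h x v ⟨hv, he⟩
  · simp only [he, false_and, ne_eq, not_false_eq_true, true_and, false_or]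
    exact h' x v ⟨hv, he⟩

/-- The polynomials on the list `l`, evaluated at `y x`, are available. -/
def Has {m : ℕ} (Φ : (Fin n → K) → (Fin m → K) → Prop) (y : (Fin n → K) → K) (l : List K[X]) :
    Prop := ∀ f, Av l f → ∃ t : Term K n m, ∀ x v, Φ x v → t.ev x v = f.eval (y x)

/-- A straight-line program. -/
theorem build (y : (Fin n → K) → K) (S : Set (Fin n → K)) (d : ℕ) (l : List K[X]) (hl : SL l)
    (k : ℕ) (hk : l.length = k + 1)
    (hcont : ∀ (m : ℕ) (Ψ : (Fin n → K) → (Fin m → K) → Prop), Has Ψ y l → Dec m Ψ S d) :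
    ∀ (m : ℕ) (Φ : (Fin n → K) → (Fin m → K) → Prop), Has Φ y [(X : K[X])] → Dec m Φ S (d + k) := by
  induction hl generalizing k d with
  | start =>
    intro m Φ hΦ
    have : k = 0 := by simpa using hk.symm
    subst this
    exact hcont m Φ hΦ
  | @step l f g o hl hf hg ih =>
    obtain ⟨k', hk'⟩ : ∃ k', l.length = k' + 1 := by
      cases l with
      | nil => cases hl
      | cons a l => exact ⟨l.length, rfl⟩
    have hkk : k = k' + 1 := by
      simp only [List.length_cons, hk'] at hk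
      omega
    subst hkk
    have h1 := ih (d + 1) k' hk' ?_
    · intro m Φ hΦ
      have h2 := h1 m Φ hΦ
      rw [show d + (k' + 1) = d + 1 + k' by omega]
      exact h2
    · intro m Ψ hΨ
      obtain ⟨t, ht⟩ := hΨ f hf
      obtain ⟨t', ht'⟩ := hΨ g hg
      apply Dec.comp o t t'
      apply hcont
      intro u hu
      rcases hu with hu | ⟨c, rfl⟩
      · rcases List.mem_cons.1 hu with rfl | hu
        · refine ⟨.val (Fin.last m), fun x w hw => ?_⟩
          simp only [Term.ev]
          rw [hw.2, ht x _ hw.1, ht' x _ hw.1]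
          cases o <;> simp [Op.app]
        · obtain ⟨s, hs⟩ := hΨ u (Or.inl hu)
          cases s with
          | var i => exact ⟨.var i, fun x w hw => hs x _ hw.1⟩
          | par c => exact ⟨.par c, fun x w hw => hs x _ hw.1⟩
          | val j => exact ⟨.val (Fin.castSucc j), fun x w hw => hs x _ hw.1⟩
      · exact ⟨.par c, fun x w _ => by simp [Term.ev]⟩

/-- Test `f (a xᵢ + b) = 0` and continue. -/
theorem DecAll.test (i : Fin n) (a b : K) (f : K[X]) (L : ℕ) (hf : Easy L f)
    (S S' : Set (Fin n → K)) (d : ℕ) (hS : DecAll S d) (hS' : DecAll S' d) :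
    DecAll {x | (f.eval (a * x i + b) = 0 ∧ x ∈ S) ∨ (f.eval (a * x i + b) ≠ 0 ∧ x ∈ S')}
      (d + L + 3) := by
  intro m
  obtain ⟨l, hl, hfl, hlen⟩ := hf
  have hk : l.length = (l.length - 1) + 1 := by
    cases l with
    | nil => cases hl
    | cons a l => simp
  apply Dec.mono (d := (d + 1 + (l.length - 1)) + 1 + 1) _ (by omega)
  apply Dec.comp .mul (.par a) (.var i)
  apply Dec.comp .add (.val (Fin.last m)) (.par b)
  apply build (fun x => a * x i + b) _ (d + 1) l hl (l.length - 1) hk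
  · intro m' Ψ hΨ
    obtain ⟨t, ht⟩ := hΨ f hfl
    apply Dec.branch t (.par 0)
    · obtain ⟨T, hT, h⟩ := hS m'
      refine ⟨T, hT, fun x v hv => ?_⟩
      have h1 := hv.2
      rw [ht x v hv.1] at h1
      simp only [Term.ev] at h1
      rw [h x v trivial]
      simp [h1]
    · obtain ⟨T, hT, h⟩ := hS' m'
      refine ⟨T, hT, fun x v hv => ?_⟩
      have h1 := hv.2
      rw [ht x v hv.1] at h1
      simp only [Term.ev] at h1
      rw [h x v trivial]
      simp [h1]
  · intro g hg
    rcases hg with hg | ⟨c, rfl⟩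
    · have : g = X := by simpa using hg
      subst this
      refine ⟨.val (Fin.last _), fun x w hw => ?_⟩
      obtain ⟨⟨_, h1⟩, h2⟩ := hw
      simp only [Term.ev, Op.app] at h1 h2 ⊢
      rw [h2, h1]
      simp
    · exact ⟨.par c, fun x w _ => by simp [Term.ev]⟩

/-- Test `xᵢ = c` and continue. -/
theorem DecAll.eqTest (i : Fin n) (c : K) (S : Set (Fin n → K)) (d : ℕ) (hd : 1 ≤ d)
    (hS : DecAll S d) : DecAll {x | x i = c ∧ x ∈ S} (d + 1) := by
  intro m
  apply Dec.branch (.var i) (.par c)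
  · obtain ⟨T, hT, h⟩ := hS m
    refine ⟨T, hT, fun x v hv => ?_⟩
    have h1 := hv.2
    simp only [Term.ev] at h1
    rw [h x v trivial]
    simp [h1]
  · obtain ⟨T, hT, h⟩ := (decAll_empty (K := K) (n := n)) m
    refine ⟨T, hT.trans hd, fun x v hv => ?_⟩
    have h1 := hv.2
    simp only [Term.ev] at h1
    rw [h x v trivial]
    simp [h1]

end Pool.Agent.TQ
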