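import Mathlib

/-!
# Computation trees over a field and Twenty Questions: definitions
-/

set_option autoImplicit false

namespace Pool.Agent.TQ

open Polynomial

/-- The three operations. -/
inductive Op
  | add
  | sub
  | mul

/-- The value of an operation. -/
def Op.app {R : Type} [Ring R] : Op → R → R → R
  | .add, a, b => a + b
  | .sub, a, b => a - b
  | .mul, a, b => a * b

/-- A term of a computation tree with `n` input variables at a node with `m` computation nodes above it:
an input variable, a parameter or a value computed above. -/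
inductive Term (K : Type) (n m : ℕ)
  | var (i : Fin n)
  | par (c : K)
  | val (j : Fin m)

/-- The value of a term; `x` is the input, `v` are the values computed above. -/
def Term.ev {K : Type} {n m : ℕ} (x : Fin n → K) (v : Fin m → K) : Term K n m → K
  | .var i => x i
  | .par c => c
  | .val j => v j

/-- Computation trees with `n` input variables; the index is the number of the values computed above the
root of the tree (`0` for the whole tree). -/
inductive CTree (K : Type) (n : ℕ) : ℕ → Type
  | leaf {m : ℕ} (accept : Bool) : CTree K n m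
  | comp {m : ℕ} (o : Op) (t t' : Term K n m) (T : CTree K n (m + 1)) : CTree K n m
  | branch {m : ℕ} (t t' : Term K n m) (eq ne : CTree K n m) : CTree K n m

/-- The largest number of nodes on a path from the root to a leaf. -/
def CTree.depth {K : Type} {n : ℕ} : {m : ℕ} → CTree K n m → ℕ
  | _, .leaf _ => 1
  | _, .comp _ _ _ T => T.depth + 1
  | _, .branch _ _ T U => max T.depth U.depth + 1

/-- The input `x` reaches an accepting leaf. -/
def CTree.Acc {K : Type} [Field K] {n : ℕ} (x : Fin n → K) :
    {m : ℕ} → CTree K n m → (Fin m → K) → Prop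
  | _, .leaf b, _ => b = true
  | _, .comp o t t' T, v => T.Acc x (Fin.snoc v (o.app (t.ev x v) (t'.ev x v)))
  | _, .branch t t' T U, v => (t.ev x v = t'.ev x v ∧ T.Acc x v) ∨ (t.ev x v ≠ t'.ev x v ∧ U.Acc x v)

/-- The set of inputs recognised by a computation tree. -/
def CTree.lang {K : Type} [Field K] {n : ℕ} (T : CTree K n 0) : Set (Fin n → K) :=
  {x | T.Acc x Fin.elim0}

/-- The sets `S n ⊆ K ^ n`, `n ≥ 1`, are solvable by polynomial-depth computation trees over `K`. -/
def Solvable (K : Type) [Field K] (S : (n : ℕ) → Set (Fin n → K)) : Prop :=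
  ∃ p : Polynomial ℕ, ∀ n, 1 ≤ n → ∃ T : CTree K n 0, T.depth ≤ p.eval n ∧ T.lang = S n

/-- `{(x₁, ..., xₙ) : x₁ ∈ A}` for a set `A` of natural numbers. -/
def firstIn (K : Type) [Field K] (n : ℕ) (A : Set ℕ) : Set (Fin n → K) :=
  {x | ∃ i : Fin n, i.1 = 0 ∧ ∃ k ∈ A, x i = k}

/-- Twenty Questions: `x₁ ∈ {0, 1, ..., 2ⁿ - 1}`. -/
def TwentyQ (K : Type) [Field K] (n : ℕ) : Set (Fin n → K) := firstIn K n {k | k < 2 ^ n}

/-- The point `z` with the first coordinate replaced by `y`. -/
def setFirst {K : Type} {n : ℕ} (z : Fin n → K) (y : K) (i : Fin n) : K :=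
  if i.1 = 0 then y else z i

/-! ### straight-line programs -/

/-- A polynomial on the list or a constant. -/
def Av {K : Type} [Field K] (l : List K[X]) (f : K[X]) : Prop := f ∈ l ∨ ∃ c, f = C c

/-- The lists `[fₗ, ..., f₁, X]` of polynomials produced by straight-line programs: every `fᵢ` is the
sum, difference or product of two polynomials each of which is a constant or comes earlier. -/
inductive SL {K : Type} [Field K] : List K[X] → Prop
  | start : SL [(X : K[X])]
  | step {l : List K[X]} {f g : K[X]} (o : Op) : SL l → Av l f → Av l g → SL (o.app f g :: l)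

/-- `f` is computed from `X` and constants by a straight-line program with at most `L` operations
`+`, `-`, `×`. -/
def Easy {K : Type} [Field K] (L : ℕ) (f : K[X]) : Prop := ∃ l, SL l ∧ Av l f ∧ l.length ≤ L + 1

end Pool.Agent.TQ
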