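import Pool.Agent.Lib_helper12.TQ.Defs

/-!
# The generic path of a computation tree, and operations on straight-line programs
-/

set_option autoImplicit false

namespace Pool.Agent.TQ

open Polynomial
open scoped Classical

variable {K : Type} [Field K] {n : ℕ}

omit [Field K] in
theorem CTree.one_le_depth : ∀ {m : ℕ} (T : CTree K n m), 1 ≤ T.depth
  | _, .leaf _ => le_rfl
  | _, .comp _ _ _ T => by simp [CTree.depth]
  | _, .branch _ _ T U => by simp [CTree.depth]

/-- the polynomial of a term along the line `setFirst z` -/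
noncomputable def tp {m : ℕ} (z : Fin n → K) (v : Fin m → K[X]) : Term K n m → K[X]
  | .var i => if i.1 = 0 then X else C (z i)
  | .par c => C c
  | .val j => v j

theorem tp_ev {m : ℕ} (z : Fin n → K) (v : Fin m → K[X]) (t : Term K n m) (y : K) :
    (tp z v t).eval y = t.ev (setFirst z y) (fun j => (v j).eval y) := by
  cases t with
  | var i => by_cases h : i.1 = 0 <;> simp [tp, Term.ev, setFirst, h]
  | par c => simp [tp, Term.ev]
  | val j => simp [tp, Term.ev]

theorem Av.mono {l l' : List K[X]} (h : ∀ f ∈ l, f ∈ l') {f : K[X]} (hf : Av l f) : Av l' f := by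
  rcases hf with hf | hf
  · exact Or.inl (h f hf)
  · exact Or.inr hf

theorem tp_av {m : ℕ} (z : Fin n → K) (v : Fin m → K[X]) (t : Term K n m) (l : List K[X])
    (hv : ∀ j, Av l (v j)) (hX : (X : K[X]) ∈ l) : Av l (tp z v t) := by
  cases t with
  | var i =>
    by_cases h : i.1 = 0
    · simp only [tp, h, if_true]; exact Or.inl hX
    · simp only [tp, h, if_false]; exact Or.inr ⟨_, rfl⟩
  | par c => exact Or.inr ⟨c, rfl⟩
  | val j => exact hv j

theorem app_eval (o : Op) (f g : K[X]) (y : K) :
    (o.app f g).eval y = o.app (f.eval y) (g.eval y) := by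
  cases o <;> simp [Op.app]

theorem generic (z : Fin n → K) : ∀ {m : ℕ} (T : CTree K n m) (v : Fin m → K[X]) (l : List K[X]),
    SL l → (∀ j, Av l (v j)) → (X : K[X]) ∈ l →
    ∃ (l' : List K[X]) (h : K[X]) (b : Bool), SL l' ∧ Av l' h ∧ h ≠ 0 ∧ (∀ f ∈ l, f ∈ l') ∧
      l'.length ≤ l.length + 2 * (T.depth - 1) ∧
      ∀ y, h.eval y ≠ 0 → (T.Acc (setFirst z y) (fun j => (v j).eval y) ↔ b = true)
  | _, .leaf b, v, l, hl, hv, hX => by
    refine ⟨l, 1, b, hl, Or.inr ⟨1, by simp⟩, one_ne_zero, fun _ h => h, by simp [CTree.depth],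
      fun y _ => ?_⟩
    simp [CTree.Acc]
  | _, .comp o t t' T, v, l, hl, hv, hX => by
    have ht := tp_av z v t l hv hX
    have ht' := tp_av z v t' l hv hX
    obtain ⟨l', h, b, hl', hh, h0, hsub, hlen, hacc⟩ :=
      generic z T (Fin.snoc v (o.app (tp z v t) (tp z v t')))
        (o.app (tp z v t) (tp z v t') :: l) (SL.step o hl ht ht') (by
          intro j
          refine Fin.lastCases ?_ (fun j => ?_) j
          · rw [Fin.snoc_last]; exact Or.inl (by simp)
          · rw [Fin.snoc_castSucc]
            exact (hv j).mono fun f hf => List.mem_cons_of_mem _ hf) (List.mem_cons_of_mem _ hX)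
    have hd := T.one_le_depth
    refine ⟨l', h, b, hl', hh, h0, fun f hf => hsub f (List.mem_cons_of_mem _ hf), ?_, ?_⟩
    · simp only [List.length_cons, CTree.depth] at hlen ⊢
      omega
    · intro y hy
      rw [← hacc y hy]
      simp only [CTree.Acc]
      have e : (fun j => (Fin.snoc (α := fun _ => K[X]) v (o.app (tp z v t) (tp z v t')) j).eval y) =
          Fin.snoc (α := fun _ => K) (fun j => (v j).eval y)
            (o.app (t.ev (setFirst z y) fun j => (v j).eval y) (t'.ev (setFirst z y) fun j => (v j).eval y)) := by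
        funext j
        refine Fin.lastCases ?_ (fun j => ?_) j
        · simp only [Fin.snoc_last]
          rw [app_eval, tp_ev, tp_ev]
        · simp only [Fin.snoc_castSucc]
      rw [e]
  | _, .branch t t' T U, v, l, hl, hv, hX => by
    have ht := tp_av z v t l hv hX
    have ht' := tp_av z v t' l hv hX
    by_cases he : tp z v t = tp z v t'
    · obtain ⟨l', h, b, hl', hh, h0, hsub, hlen, hacc⟩ := generic z T v l hl hv hX
      refine ⟨l', h, b, hl', hh, h0, hsub, ?_, ?_⟩
      · simp only [CTree.depth]
        have := le_max_left T.depth U.depth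
        omega
      · intro y hy
        rw [← hacc y hy]
        have e : t.ev (setFirst z y) (fun j => (v j).eval y) = t'.ev (setFirst z y) (fun j => (v j).eval y) := by
          rw [← tp_ev, ← tp_ev, he]
        simp only [CTree.Acc, e, true_and, ne_eq, not_true_eq_false, false_and, or_false]
    · obtain ⟨l', h, b, hl', hh, h0, hsub, hlen, hacc⟩ := generic z U v l hl hv hX
      have hd := U.one_le_depth
      refine ⟨Op.mul.app (Op.sub.app (tp z v t) (tp z v t')) h ::
        (Op.sub.app (tp z v t) (tp z v t') :: l'), Op.mul.app (Op.sub.app (tp z v t) (tp z v t')) h,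
        b, ?_, Or.inl (by simp), ?_, ?_, ?_, ?_⟩
      · refine SL.step _ (SL.step _ hl' (ht.mono hsub) (ht'.mono hsub)) (Or.inl (by simp)) ?_
        exact hh.mono fun f hf => List.mem_cons_of_mem _ hf
      · simp only [Op.app]
        exact mul_ne_zero (sub_ne_zero.2 he) h0
      · intro f hf
        exact List.mem_cons_of_mem _ (List.mem_cons_of_mem _ (hsub f hf))
      · simp only [List.length_cons, CTree.depth]
        have := le_max_right T.depth U.depth
        omega
      · intro y hy
        simp only [Op.app, eval_mul, eval_sub] at hy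
        have h1 : (tp z v t).eval y - (tp z v t').eval y ≠ 0 := left_ne_zero_of_mul hy
        have h2 : h.eval y ≠ 0 := right_ne_zero_of_mul hy
        rw [← hacc y h2]
        have e : t.ev (setFirst z y) (fun j => (v j).eval y) ≠ t'.ev (setFirst z y) (fun j => (v j).eval y) := by
          rw [← tp_ev, ← tp_ev]
          exact sub_ne_zero.1 h1
        simp only [CTree.Acc, e, false_and, ne_eq, not_false_eq_true, true_and, false_or]

theorem Av_degree {l : List K[X]} {d : ℕ} (h : ∀ f ∈ l, f.natDegree ≤ d) {f : K[X]} (hf : Av l f) :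
    f.natDegree ≤ d := by
  rcases hf with hf | ⟨c, rfl⟩
  · exact h f hf
  · simp

theorem SL_degree {l : List K[X]} (hl : SL l) :
    1 ≤ l.length ∧ ∀ f ∈ l, f.natDegree ≤ 2 ^ (l.length - 1) := by
  induction hl with
  | start => simp
  | @step l f g o hl hf hg ih =>
    obtain ⟨ih0, ih⟩ := ih
    have h1 := Av_degree ih hf
    have h2 := Av_degree ih hg
    have h3 : 2 ^ l.length = 2 * 2 ^ (l.length - 1) := by
      rw [← pow_succ']; congr 1; omega
    refine ⟨by simp, ?_⟩
    intro u hu
    simp only [List.length_cons, Nat.add_sub_cancel]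
    rcases List.mem_cons.1 hu with rfl | hu
    · cases o
      · simp only [Op.app]
        refine (natDegree_add_le _ _).trans ?_
        rw [max_le_iff]; omega
      · simp only [Op.app]
        refine (natDegree_sub_le _ _).trans ?_
        rw [max_le_iff]; omega
      · simp only [Op.app]
        refine natDegree_mul_le.trans ?_
        omega
    · have := ih u hu
      omega

theorem Easy.natDegree_le {L : ℕ} {f : K[X]} (h : Easy L f) : f.natDegree ≤ 2 ^ L := by
  obtain ⟨l, hl, hf, hlen⟩ := h
  obtain ⟨h1, h2⟩ := SL_degree hl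
  have h3 := Av_degree h2 hf
  exact h3.trans (Nat.pow_le_pow_right (by norm_num) (by omega))

/-- A tree which rejects many points on a line gives a polynomial which vanishes at the accepted points
of the line. -/
theorem tree_poly (T : CTree K n 0) (z : Fin n → K)
    (hrej : ((4 ^ T.depth : ℕ) : ℕ∞) < Set.encard {y | setFirst z y ∉ T.lang}) :
    ∃ f : K[X], f ≠ 0 ∧ Easy (2 * T.depth) f ∧ ∀ y, setFirst z y ∈ T.lang → f.eval y = 0 := by
  obtain ⟨l', h, b, hl', hh, h0, hsub, hlen, hacc⟩ := generic z T Fin.elim0 [(X : K[X])] SL.start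
    (fun j => j.elim0) (by simp)
  have hv : ∀ y, (fun j : Fin 0 => ((Fin.elim0 j : K[X])).eval y) = (Fin.elim0 : Fin 0 → K) :=
    fun y => Subsingleton.elim _ _
  have hacc' : ∀ y, h.eval y ≠ 0 → (setFirst z y ∈ T.lang ↔ b = true) := by
    intro y hy
    have h1 := hacc y hy
    rw [hv y] at h1
    exact h1
  have hE : Easy (2 * T.depth) h := by
    refine ⟨l', hl', hh, ?_⟩
    simp only [List.length_cons, List.length_nil] at hlen
    omega
  have hb : b ≠ true := by
    intro hb
    refine absurd hrej (not_lt.2 ?_)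
    have hsub : {y | setFirst z y ∉ T.lang} ⊆ (h.roots.toFinset : Set K) := by
      intro y hy
      rw [Finset.mem_coe, Multiset.mem_toFinset, mem_roots h0]
      by_contra hne
      exact hy ((hacc' y hne).2 hb)
    refine (Set.encard_le_encard hsub).trans ?_
    rw [Set.encard_coe_eq_coe_finsetCard]
    have h1 := Multiset.toFinset_card_le h.roots
    have h2 := card_roots' h
    have h3 := hE.natDegree_le
    rw [pow_mul] at h3
    norm_num at h3
    exact_mod_cast (h1.trans h2).trans h3
  refine ⟨h, h0, hE, ?_⟩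
  intro y hy
  by_contra hne
  exact hb ((hacc' y hne).1 hy)

/-! ### operations on straight-line programs -/

/-- Continue the program `l₀` by the program `l` with `X` replaced by `u`. -/
theorem SL.append {l₀ : List K[X]} (h₀ : SL l₀) {u : K[X]} (hu : Av l₀ u) {l : List K[X]}
    (hl : SL l) : ∃ l' : List K[X], SL l' ∧ l'.length + 1 = l₀.length + l.length ∧
      (∀ g, Av l g → Av l' (g.comp u)) ∧ ∀ g, Av l₀ g → Av l' g := by
  induction hl with
  | start =>
    refine ⟨l₀, h₀, by simp, ?_, fun _ h => h⟩
    intro g hg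
    rcases hg with hg | ⟨c, rfl⟩
    · have : g = X := by simpa using hg
      subst this
      simpa using hu
    · exact Or.inr ⟨c, by simp⟩
  | @step l f g o hl hf hg ih =>
    obtain ⟨l', h1, h2, h3, h4⟩ := ih
    refine ⟨o.app (f.comp u) (g.comp u) :: l', SL.step o h1 (h3 f hf) (h3 g hg), ?_, ?_, ?_⟩
    · simp only [List.length_cons]; omega
    · intro q hq
      rcases hq with hq | ⟨c, rfl⟩
      · rcases List.mem_cons.1 hq with rfl | hq
        · left
          have : (o.app f g).comp u = o.app (f.comp u) (g.comp u) := by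
            cases o <;> simp [Op.app]
          rw [this]
          simp
        · exact (h3 q (Or.inl hq)).mono fun f hf => List.mem_cons_of_mem _ hf
      · exact Or.inr ⟨c, by simp⟩
    · intro q hq
      exact (h4 q hq).mono fun f hf => List.mem_cons_of_mem _ hf

theorem Easy.mono {L L' : ℕ} {f : K[X]} (h : Easy L f) (hL : L ≤ L') : Easy L' f := by
  obtain ⟨l, hl, hf, hlen⟩ := h
  exact ⟨l, hl, hf, by omega⟩

theorem easy_C (c : K) : Easy 0 (C c) := ⟨[(X : K[X])], SL.start, Or.inr ⟨c, rfl⟩, by simp⟩

theorem easy_X : Easy 0 (X : K[X]) := ⟨[(X : K[X])], SL.start, Or.inl (by simp), by simp⟩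

theorem Easy.comp {L L' : ℕ} {f u : K[X]} (hf : Easy L f) (hu : Easy L' u) :
    Easy (L' + L) (f.comp u) := by
  obtain ⟨l₀, hl₀, hu₀, hlen₀⟩ := hu
  obtain ⟨l, hl, hf', hlen⟩ := hf
  obtain ⟨l', h1, h2, h3, _⟩ := hl₀.append hu₀ hl
  exact ⟨l', h1, h3 f hf', by omega⟩

theorem Easy.op (o : Op) {L L' : ℕ} {f g : K[X]} (hf : Easy L f) (hg : Easy L' g) :
    Easy (L + L' + 1) (o.app f g) := by
  obtain ⟨l, hl, hf', hlen⟩ := hf
  obtain ⟨l₂, hl₂, hg', hlen₂⟩ := hg
  have hX : ∀ {l : List K[X]}, SL l → (X : K[X]) ∈ l := by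
    intro l hl
    induction hl with
    | start => simp
    | step o _ _ _ ih => exact List.mem_cons_of_mem _ ih
  obtain ⟨l', h1, h2, h3, h4⟩ := hl.append (Or.inl (hX hl)) hl₂
  refine ⟨o.app f g :: l', SL.step o h1 (h4 f hf') ?_, Or.inl (by simp), ?_⟩
  · simpa using h3 g hg'
  · simp only [List.length_cons]; omega

/-- Change of the field. -/
theorem Easy.map {K' : Type} [Field K'] (φ : K →+* K') {L : ℕ} {f : K[X]} (hf : Easy L f) :
    Easy L (f.map φ) := by
  obtain ⟨l, hl, hf', hlen⟩ := hf
  have key : ∀ {l : List K[X]}, SL l → SL (l.map (Polynomial.map φ)) := by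
    intro l hl
    induction hl with
    | start => simpa using (SL.start (K := K'))
    | @step l f g o hl hf hg ih =>
      have hav : ∀ {q : K[X]}, Av l q → Av (l.map (Polynomial.map φ)) (q.map φ) := by
        intro q hq
        rcases hq with hq | ⟨c, rfl⟩
        · exact Or.inl (List.mem_map_of_mem hq)
        · exact Or.inr ⟨φ c, by simp⟩
      have : (o.app f g).map φ = o.app (f.map φ) (g.map φ) := by
        cases o <;> simp [Op.app]
      rw [List.map_cons, this]
      exact SL.step o ih (hav hf) (hav hg)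
  refine ⟨l.map (Polynomial.map φ), key hl, ?_, by simpa using hlen⟩
  rcases hf' with hf' | ⟨c, rfl⟩
  · exact Or.inl (List.mem_map_of_mem hf')
  · exact Or.inr ⟨φ c, by simp⟩

/-- Real and imaginary parts. -/
theorem easy_re_im {L : ℕ} {f : ℂ[X]} (hf : Easy L f) : ∃ u v : ℝ[X], Easy (6 * L + 6) u ∧
    Easy (6 * L + 6) v ∧ f = u.map Complex.ofRealHom + C Complex.I * v.map Complex.ofRealHom := by
  obtain ⟨l, hl, hf', hlen⟩ := hf
  have key : ∀ {l : List ℂ[X]}, SL l → ∃ l' : List ℝ[X], SL l' ∧ l'.length ≤ 6 * l.length ∧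
      ∀ g, Av l g → ∃ u v : ℝ[X], Av l' u ∧ Av l' v ∧
        g = u.map Complex.ofRealHom + C Complex.I * v.map Complex.ofRealHom := by
    intro l hl
    have hconst : ∀ (l' : List ℝ[X]) (c : ℂ), ∃ u v : ℝ[X], Av l' u ∧ Av l' v ∧
        (C c : ℂ[X]) = u.map Complex.ofRealHom + C Complex.I * v.map Complex.ofRealHom := by
      intro l' c
      refine ⟨C c.re, C c.im, Or.inr ⟨_, rfl⟩, Or.inr ⟨_, rfl⟩, ?_⟩
      rw [map_C, map_C, ← C_mul, ← C_add]
      congr 1
      apply Complex.ext <;> simp
    induction hl with
    | start =>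
      refine ⟨[(X : ℝ[X])], SL.start, by simp, ?_⟩
      intro g hg
      rcases hg with hg | ⟨c, rfl⟩
      · have : g = X := by simpa using hg
        subst this
        exact ⟨X, C 0, Or.inl (by simp), Or.inr ⟨0, rfl⟩, by simp⟩
      · exact hconst _ c
    | @step l f g o hl hf hg ih =>
      obtain ⟨l', h1, h2, h3⟩ := ih
      obtain ⟨u, v, hu, hv, hfe⟩ := h3 f hf
      obtain ⟨u', v', hu', hv', hge⟩ := h3 g hg
      have mono : ∀ (l'' : List ℝ[X]), (∀ q ∈ l', q ∈ l'') → (∃ u v : ℝ[X], Av l'' u ∧ Av l'' v ∧
          o.app f g = u.map Complex.ofRealHom + C Complex.I * v.map Complex.ofRealHom) →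
          ∀ q, Av (o.app f g :: l) q → ∃ u v : ℝ[X], Av l'' u ∧ Av l'' v ∧
          q = u.map Complex.ofRealHom + C Complex.I * v.map Complex.ofRealHom := by
        intro l'' hsub hex q hq
        rcases hq with hq | ⟨c, rfl⟩
        · rcases List.mem_cons.1 hq with rfl | hq
          · exact hex
          · obtain ⟨u, v, hu, hv, he⟩ := h3 q (Or.inl hq)
            exact ⟨u, v, hu.mono hsub, hv.mono hsub, he⟩
        · exact hconst _ c
      cases o with
      | add =>
        refine ⟨Op.add.app v v' :: (Op.add.app u u' :: l'), ?_, ?_, ?_⟩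
        · refine SL.step _ (SL.step _ h1 hu hu') ?_ ?_
          · exact hv.mono fun q hq => List.mem_cons_of_mem _ hq
          · exact hv'.mono fun q hq => List.mem_cons_of_mem _ hq
        · simp only [List.length_cons]; omega
        · apply mono
          · intro q hq; simp [hq]
          · refine ⟨Op.add.app u u', Op.add.app v v', Or.inl (by simp), Or.inl (by simp), ?_⟩
            simp only [Op.app, hfe, hge, Polynomial.map_add]
            ring
      | sub =>
        refine ⟨Op.sub.app v v' :: (Op.sub.app u u' :: l'), ?_, ?_, ?_⟩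
        · refine SL.step _ (SL.step _ h1 hu hu') ?_ ?_
          · exact hv.mono fun q hq => List.mem_cons_of_mem _ hq
          · exact hv'.mono fun q hq => List.mem_cons_of_mem _ hq
        · simp only [List.length_cons]; omega
        · apply mono
          · intro q hq; simp [hq]
          · refine ⟨Op.sub.app u u', Op.sub.app v v', Or.inl (by simp), Or.inl (by simp), ?_⟩
            simp only [Op.app, hfe, hge, Polynomial.map_sub]
            ring
      | mul =>
        have s1 : SL (Op.mul.app u u' :: l') := SL.step _ h1 hu hu'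
        have m1 : ∀ {q : ℝ[X]}, Av l' q → Av (Op.mul.app u u' :: l') q :=
          fun hq => hq.mono fun q hq => List.mem_cons_of_mem _ hq
        have s2 : SL (Op.mul.app v v' :: (Op.mul.app u u' :: l')) := SL.step _ s1 (m1 hv) (m1 hv')
        have s3 : SL (Op.sub.app (Op.mul.app u u') (Op.mul.app v v') ::
            (Op.mul.app v v' :: (Op.mul.app u u' :: l'))) :=
          SL.step _ s2 (Or.inl (by simp)) (Or.inl (by simp))
        have m3 : ∀ {q : ℝ[X]}, Av l' q → Av (Op.sub.app (Op.mul.app u u') (Op.mul.app v v') ::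
            (Op.mul.app v v' :: (Op.mul.app u u' :: l'))) q :=
          fun hq => hq.mono fun q hq => by simp [hq]
        have s4 := SL.step Op.mul s3 (m3 hu) (m3 hv')
        have m4 : ∀ {q : ℝ[X]}, Av l' q → Av (Op.mul.app u v' ::
            (Op.sub.app (Op.mul.app u u') (Op.mul.app v v') ::
            (Op.mul.app v v' :: (Op.mul.app u u' :: l')))) q :=
          fun hq => hq.mono fun q hq => by simp [hq]
        have s5 := SL.step Op.mul s4 (m4 hv) (m4 hu')
        have s6 := SL.step Op.add s5 (f := Op.mul.app u v') (g := Op.mul.app v u')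
          (Or.inl (by simp)) (Or.inl (by simp))
        refine ⟨_, s6, ?_, ?_⟩
        · simp only [List.length_cons]; omega
        · apply mono
          · intro q hq; simp [hq]
          · refine ⟨Op.sub.app (Op.mul.app u u') (Op.mul.app v v'),
              Op.add.app (Op.mul.app u v') (Op.mul.app v u'), Or.inl (by simp),
              Or.inl (by simp), ?_⟩
            simp only [Op.app, hfe, hge, Polynomial.map_add, Polynomial.map_sub,
              Polynomial.map_mul]
            have hI : (C Complex.I : ℂ[X]) * C Complex.I = -1 := by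
              rw [← C_mul, Complex.I_mul_I]; simp
            linear_combination (v.map Complex.ofRealHom) * (v'.map Complex.ofRealHom) * hI
  obtain ⟨l', h1, h2, h3⟩ := key hl
  obtain ⟨u, v, hu, hv, he⟩ := h3 f hf'
  exact ⟨u, v, ⟨l', h1, hu, by omega⟩, ⟨l', h1, hv, by omega⟩, he⟩

end Pool.Agent.TQ
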