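import Pool.Agent.Lib_helper12.TQ.Build
import Pool.Agent.Lib_helper12.TQ.Generic

/-!
# Identification of an integer by equality tests
-/

set_option autoImplicit false

namespace Pool.Agent.TQ

open Polynomial Finset
open scoped Classical

section deg
variable {K : Type} [Field K]

/-- the number of integer roots -/
theorem Easy.roots {L : ℕ} [CharZero K] {f : K[X]} (h : Easy L f) (h0 : f ≠ 0) (F : Finset ℤ)
    (hF : ∀ z ∈ F, f.eval (z : K) = 0) : 4 * F.card ≤ 2 ^ (L + 2) := by
  have h1 : (F.image fun z : ℤ => (z : K)).card = F.card :=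
    card_image_of_injective _ Int.cast_injective
  have h2 : (F.image fun z : ℤ => (z : K)) ⊆ f.roots.toFinset := by
    intro y hy
    obtain ⟨z, hz, rfl⟩ := mem_image.1 hy
    rw [Multiset.mem_toFinset, mem_roots h0]
    exact hF z hz
  have h3 := card_le_card h2
  have h4 := Multiset.toFinset_card_le f.roots
  have h5 := card_roots' f
  have h6 := h.natDegree_le
  rw [pow_add]
  omega

end deg

theorem pow_ineq (M : ℕ) (hM : 1 ≤ M) (k : ℕ) : 2 ^ k * (M - 1) ^ (k * M) ≤ M ^ (k * M) := by
  have h1 : 2 * (M - 1) ^ M ≤ M ^ M := by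
    rcases Nat.eq_or_lt_of_le hM with h | h
    · rw [← h]; norm_num
    · obtain ⟨t, rfl⟩ : ∃ t, M = t + 1 := ⟨M - 1, by omega⟩
      have ht : 0 < t := by omega
      simp only [Nat.add_sub_cancel]
      have h2 : (1 : ℝ) + ((t + 1 : ℕ) : ℝ) * (1 / t) ≤ (1 + 1 / t) ^ (t + 1) := by
        apply one_add_mul_le_pow
        have : (0 : ℝ) ≤ 1 / t := by positivity
        linarith
      have ht' : (0 : ℝ) < t := by exact_mod_cast ht
      have h3 : (2 : ℝ) ≤ (1 + 1 / t) ^ (t + 1) := by
        refine le_trans ?_ h2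
        push_cast
        have : ((t : ℝ) + 1) * (1 / t) = 1 + 1 / t := by field_simp
        rw [this]
        have : (0 : ℝ) ≤ 1 / t := by positivity
        linarith
      have h4 : (2 : ℝ) * t ^ (t + 1) ≤ (t + 1) ^ (t + 1) := by
        calc (2 : ℝ) * t ^ (t + 1) ≤ (1 + 1 / t) ^ (t + 1) * t ^ (t + 1) := by gcongr
          _ = ((1 + 1 / t) * t) ^ (t + 1) := by rw [mul_pow]
          _ = _ := by congr 1; field_simp
      exact_mod_cast h4
  calc 2 ^ k * (M - 1) ^ (k * M) = (2 * (M - 1) ^ M) ^ k := by
        rw [mul_pow, ← pow_mul, mul_comm k M]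
    _ ≤ (M ^ M) ^ k := Nat.pow_le_pow_left h1 k
    _ = _ := by rw [← pow_mul, mul_comm k M]

variable {K : Type} [Field K] [CharZero K] {n : ℕ}

omit [CharZero K] in
theorem ident_small (i : Fin n) (C : Finset ℕ) (hC : C.card < 2) (S : ℕ → Set (Fin n → K)) (d : ℕ)
    (hd : 1 ≤ d) (hS : ∀ j, DecAll (S j) d) :
    DecAll {x | ∃ j ∈ C, x i = (j : K) ∧ x ∈ S j} (d + 1) := by
  have h1 : C.card = 0 ∨ C.card = 1 := by omega
  rcases h1 with h1 | h1
  · rw [card_eq_zero] at h1
    subst h1
    have : {x : Fin n → K | ∃ j ∈ (∅ : Finset ℕ), x i = (j : K) ∧ x ∈ S j} = ∅ := by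
      ext x; simp
    rw [this]
    exact decAll_empty.mono (by omega)
  · rw [card_eq_one] at h1
    obtain ⟨j, rfl⟩ := h1
    have : {x : Fin n → K | ∃ j' ∈ ({j} : Finset ℕ), x i = (j' : K) ∧ x ∈ S j'} =
        {x | x i = (j : K) ∧ x ∈ S j} := by
      ext x; simp
    rw [this]
    exact DecAll.eqTest i (j : K) (S j) d hd (hS j)

/-- Identification in `R` rounds. -/
theorem ident (i : Fin n) (N L : ℕ) (f : K[X]) (hf0 : f ≠ 0) (hf : Easy L f)
    (hz : ∀ k : ℕ, k < 2 ^ N → f.eval (k : K) = 0) (S : ℕ → Set (Fin n → K)) (d : ℕ)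
    (hd : 1 ≤ d) (hS : ∀ j, DecAll (S j) d) (R : ℕ) :
    ∀ C : Finset ℕ, (∀ j ∈ C, j < 2 ^ N) →
      C.card * (2048 * N * (L + 3) - 1) ^ R < 2 * (2048 * N * (L + 3)) ^ R →
      DecAll {x | ∃ j ∈ C, x i = (j : K) ∧ x ∈ S j} (d + 1 + R * (L + 3)) := by
  set M := 2048 * N * (L + 3) with hM
  induction R with
  | zero =>
    intro C hC hc
    simp only [pow_zero, mul_one] at hc
    exact (ident_small i C hc S d hd hS).mono (by omega)
  | succ R ih =>
    intro C hC hc
    by_cases hc2 : C.card < 2
    · exact (ident_small i C hc2 S d hd hS).mono (by omega)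
    · have hc2' : 2 ≤ C.card := by omega
      obtain ⟨a, b, hab⟩ := split (fun z : ℤ => f.eval (z : K) = 0) (L + 2) N
        (fun r hr => by simpa using hz r hr) (fun F hF => hf.roots hf0 F hF) C hC hc2'
      rw [show L + 2 + 1 = L + 3 by omega, ← hM] at hab
      set C1 := C.filter fun j : ℕ => f.eval ((a * j + b : ℤ) : K) = 0 with hC1
      set C2 := C.filter fun j : ℕ => ¬ f.eval ((a * j + b : ℤ) : K) = 0 with hC2
      have hsum : C1.card + C2.card = C.card := card_filter_add_card_filter_not _
      have hpos : 0 < C.card := by omega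
      have k1 : C.card ≤ M * C1.card := by
        have h1 : C.card * C.card ≤ (M * C1.card) * C.card := by
          calc C.card * C.card ≤ M * (C1.card * C2.card) := hab
            _ = (M * C1.card) * C2.card := by ring
            _ ≤ (M * C1.card) * C.card := Nat.mul_le_mul_left _ (by omega)
        exact Nat.le_of_mul_le_mul_right h1 hpos
      have k2 : C.card ≤ M * C2.card := by
        have h1 : C.card * C.card ≤ (M * C2.card) * C.card := by
          calc C.card * C.card ≤ M * (C1.card * C2.card) := hab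
            _ = (M * C2.card) * C1.card := by ring
            _ ≤ (M * C2.card) * C.card := Nat.mul_le_mul_left _ (by omega)
        exact Nat.le_of_mul_le_mul_right h1 hpos
      have hM1 : 1 ≤ M := by
        rcases Nat.eq_zero_or_pos M with h | h
        · rw [h] at k1; omega
        · exact h
      have e1 : M * C1.card ≤ (M - 1) * C.card := by
        have : M * C1.card + M * C2.card = M * C.card := by rw [← Nat.mul_add, hsum]
        have h3 : (M - 1) * C.card = M * C.card - C.card := by
          rw [Nat.sub_mul, one_mul]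
        omega
      have e2 : M * C2.card ≤ (M - 1) * C.card := by
        have : M * C1.card + M * C2.card = M * C.card := by rw [← Nat.mul_add, hsum]
        have h3 : (M - 1) * C.card = M * C.card - C.card := by
          rw [Nat.sub_mul, one_mul]
        omega
      have key : ∀ D : Finset ℕ, M * D.card ≤ (M - 1) * C.card →
          D.card * (M - 1) ^ R < 2 * M ^ R := by
        intro D hD
        have h1 : M * (D.card * (M - 1) ^ R) < M * (2 * M ^ R) := by
          calc M * (D.card * (M - 1) ^ R) = (M * D.card) * (M - 1) ^ R := by ring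
            _ ≤ ((M - 1) * C.card) * (M - 1) ^ R := Nat.mul_le_mul_right _ hD
            _ = C.card * (M - 1) ^ (R + 1) := by rw [pow_succ]; ring
            _ < 2 * M ^ (R + 1) := hc
            _ = _ := by rw [pow_succ]; ring
        exact Nat.lt_of_mul_lt_mul_left h1
      have d1 := ih C1 (fun j hj => hC j (mem_filter.1 hj).1) (key C1 e1)
      have d2 := ih C2 (fun j hj => hC j (mem_filter.1 hj).1) (key C2 e2)
      have d3 := DecAll.test i (a : K) (b : K) f L hf _ _ _ d1 d2
      have hset : {x : Fin n → K | ∃ j ∈ C, x i = (j : K) ∧ x ∈ S j} =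
          {x | (f.eval ((a : K) * x i + b) = 0 ∧
            x ∈ {x | ∃ j ∈ C1, x i = (j : K) ∧ x ∈ S j}) ∨
            (f.eval ((a : K) * x i + b) ≠ 0 ∧
            x ∈ {x | ∃ j ∈ C2, x i = (j : K) ∧ x ∈ S j})} := by
        ext x
        simp only [Set.mem_ofPred_eq, hC1, hC2, mem_filter]
        constructor
        · rintro ⟨j, hj, hx, hxS⟩
          by_cases h0 : f.eval ((a * j + b : ℤ) : K) = 0
          · left
            refine ⟨?_, j, ⟨hj, h0⟩, hx, hxS⟩
            rw [hx]; push_cast at h0; exact h0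
          · right
            refine ⟨?_, j, ⟨hj, h0⟩, hx, hxS⟩
            rw [hx]; push_cast at h0; exact h0
        · rintro (⟨_, j, ⟨hj, _⟩, hx, hxS⟩ | ⟨_, j, ⟨hj, _⟩, hx, hxS⟩)
          · exact ⟨j, hj, hx, hxS⟩
          · exact ⟨j, hj, hx, hxS⟩
      rw [hset]
      exact d3.mono (by ring_nf; omega)

/-- Identification of `xᵢ ∈ {0, ..., 2 ^ N - 1}`. -/
theorem ident_full (i : Fin n) (N L : ℕ) (f : K[X]) (hf0 : f ≠ 0) (hf : Easy L f)
    (hz : ∀ k : ℕ, k < 2 ^ N → f.eval (k : K) = 0) (S : ℕ → Set (Fin n → K)) (d : ℕ)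
    (hd : 1 ≤ d) (hS : ∀ j, DecAll (S j) d) :
    DecAll {x | ∃ j : ℕ, j < 2 ^ N ∧ x i = (j : K) ∧ x ∈ S j}
      (d + 1 + 2048 * N ^ 2 * (L + 3) ^ 2) := by
  have h := ident i N L f hf0 hf hz S d hd hS (N * (2048 * N * (L + 3))) (range (2 ^ N))
    (fun j hj => mem_range.1 hj) ?_
  · have e : {x : Fin n → K | ∃ j ∈ range (2 ^ N), x i = (j : K) ∧ x ∈ S j} =
        {x | ∃ j : ℕ, j < 2 ^ N ∧ x i = (j : K) ∧ x ∈ S j} := by
      ext x; simp
    rw [e] at h
    exact h.mono (by ring_nf; omega)
  · rw [card_range]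
    rcases Nat.eq_zero_or_pos N with rfl | hN
    · simp
    · have h1 := pow_ineq (2048 * N * (L + 3)) (by
        have : 0 < 2048 * N * (L + 3) := by positivity
        omega) N
      have h2 : 0 < (2048 * N * (L + 3)) ^ (N * (2048 * N * (L + 3))) := by positivity
      omega

/-- Every set of integer points is decided. -/
theorem grid (N L : ℕ) (f : K[X]) (hf0 : f ≠ 0) (hf : Easy L f)
    (hz : ∀ k : ℕ, k < 2 ^ N → f.eval (k : K) = 0) (A : Set (Fin n → ℕ)) :
    DecAll {x : Fin n → K | ∃ s ∈ A, (∀ i, s i < 2 ^ N) ∧ ∀ i, x i = (s i : K)}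
      (1 + n * (1 + 2048 * N ^ 2 * (L + 3) ^ 2)) := by
  have key : ∀ k, k ≤ n → ∀ σ : Fin n → ℕ, DecAll {x : Fin n → K | ∃ s ∈ A, (∀ i, s i < 2 ^ N) ∧
      (∀ i : Fin n, i.1 < n - k → s i = σ i) ∧ ∀ i : Fin n, n - k ≤ i.1 → x i = (s i : K)}
      (1 + k * (1 + 2048 * N ^ 2 * (L + 3) ^ 2)) := by
    intro k
    induction k with
    | zero =>
      intro _ σ
      by_cases h : σ ∈ A ∧ ∀ i, σ i < 2 ^ N
      · have : {x : Fin n → K | ∃ s ∈ A, (∀ i, s i < 2 ^ N) ∧
            (∀ i : Fin n, i.1 < n - 0 → s i = σ i) ∧ ∀ i : Fin n, n - 0 ≤ i.1 → x i = (s i : K)} =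
            Set.univ := by
          ext x
          simp only [Set.mem_ofPred_eq, Set.mem_univ, iff_true]
          refine ⟨σ, h.1, h.2, fun _ _ => rfl, fun i hi => ?_⟩
          have := i.2
          omega
        rw [this]
        exact decAll_univ.mono (by omega)
      · have : {x : Fin n → K | ∃ s ∈ A, (∀ i, s i < 2 ^ N) ∧
            (∀ i : Fin n, i.1 < n - 0 → s i = σ i) ∧ ∀ i : Fin n, n - 0 ≤ i.1 → x i = (s i : K)} =
            ∅ := by
          ext x
          simp only [Set.mem_ofPred_eq, Set.mem_empty_iff_false, iff_false]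
          rintro ⟨s, hs, hb, he, -⟩
          apply h
          have : s = σ := by
            funext i
            exact he i (by have := i.2; omega)
          rw [← this]
          exact ⟨hs, hb⟩
        rw [this]
        exact decAll_empty.mono (by omega)
    | succ k ih =>
      intro hk σ
      have hlt : n - (k + 1) < n := by omega
      set i0 : Fin n := ⟨n - (k + 1), hlt⟩ with hi0
      have h := ident_full i0 N L f hf0 hf hz
        (fun j => {x : Fin n → K | ∃ s ∈ A, (∀ i, s i < 2 ^ N) ∧
          (∀ i : Fin n, i.1 < n - k → s i = Function.update σ i0 j i) ∧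
          ∀ i : Fin n, n - k ≤ i.1 → x i = (s i : K)})
        (1 + k * (1 + 2048 * N ^ 2 * (L + 3) ^ 2)) (by omega)
        (fun j => ih (by omega) (Function.update σ i0 j))
      have e : {x : Fin n → K | ∃ s ∈ A, (∀ i, s i < 2 ^ N) ∧
          (∀ i : Fin n, i.1 < n - (k + 1) → s i = σ i) ∧
          ∀ i : Fin n, n - (k + 1) ≤ i.1 → x i = (s i : K)} =
          {x | ∃ j : ℕ, j < 2 ^ N ∧ x i0 = (j : K) ∧ x ∈ {x : Fin n → K | ∃ s ∈ A, (∀ i, s i < 2 ^ N) ∧
          (∀ i : Fin n, i.1 < n - k → s i = Function.update σ i0 j i) ∧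
          ∀ i : Fin n, n - k ≤ i.1 → x i = (s i : K)}} := by
        ext x
        simp only [Set.mem_ofPred_eq]
        constructor
        · rintro ⟨s, hs, hb, h1, h2⟩
          refine ⟨s i0, hb i0, h2 i0 le_rfl, s, hs, hb, ?_, fun i hi => h2 i (by omega)⟩
          intro i hi
          by_cases hii : i = i0
          · subst hii; simp
          · rw [Function.update_of_ne hii]
            apply h1
            have : i.1 ≠ n - (k + 1) := fun hh => hii (Fin.ext hh)
            omega
        · rintro ⟨j, hj, hx, s, hs, hb, h1, h2⟩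
          refine ⟨s, hs, hb, ?_, ?_⟩
          · intro i hi
            have h3 := h1 i (by omega)
            rw [h3, Function.update_of_ne]
            intro hh
            rw [hh] at hi
            simp [hi0] at hi
          · intro i hi
            by_cases hii : i = i0
            · subst hii
              have h3 := h1 i0 (by simp only [hi0]; omega)
              rw [Function.update_self] at h3
              rw [hx, h3]
            · apply h2
              have : i.1 ≠ n - (k + 1) := fun hh => hii (Fin.ext hh)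
              omega
      rw [e]
      exact h.mono (by ring_nf; omega)
  have h := key n le_rfl (fun _ => 0)
  simpa using h

end Pool.Agent.TQ
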