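import Pool.Agent.Lib_helper12.TQ.Generic
import Pool.Agent.Lib_helper12.TQ.Ident

/-!
# From dense sets of roots to all integers; growth of polynomials; primes
-/

set_option autoImplicit false

namespace Pool.Agent.TQ

open Polynomial Finset
open scoped Classical

/-! ### covering by translates -/

theorem shift_exists (N N' q : ℕ) (hN0 : 0 < N) (S U : Finset ℕ) (hS : ∀ s ∈ S, s < N)
    (hU : ∀ x ∈ U, x < N') (hN : 2 * q * N' ≤ N) (hq : N ≤ q * S.card) :
    ∃ b : ℕ, U.card ≤ 2 * q * (U.filter fun x => x + b ∈ S).card := by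
  by_contra hcon
  push Not at hcon
  have h1 : ∑ b ∈ range N, 2 * q * (U.filter fun x => x + b ∈ S).card <
      ∑ b ∈ range N, U.card :=
    sum_lt_sum_of_nonempty (nonempty_range_iff.2 hN0.ne') (fun b _ => hcon b)
  rw [sum_const, card_range, smul_eq_mul, ← mul_sum] at h1
  have h2 : ∑ b ∈ range N, (U.filter fun x => x + b ∈ S).card =
      ∑ x ∈ U, ((range N).filter fun b => x + b ∈ S).card := by
    simp_rw [card_filter]
    rw [sum_comm]
  have h3 : ∀ x ∈ U, S.card - N' ≤ ((range N).filter fun b => x + b ∈ S).card := by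
    intro x hx
    have hx' := hU x hx
    have h4 : (S.filter fun s => x ≤ s).card ≤ ((range N).filter fun b => x + b ∈ S).card := by
      apply card_le_card_of_injOn (fun s => s - x)
      · intro s hs
        simp only [coe_filter, Set.mem_ofPred_eq, mem_range] at hs ⊢
        have := hS s hs.1
        refine ⟨by omega, ?_⟩
        rw [show x + (s - x) = s by omega]
        exact hs.1
      · intro s hs s' hs' h
        simp only [coe_filter, Set.mem_ofPred_eq] at hs hs' h
        omega
    have h5 : (S.filter fun s => ¬ x ≤ s).card ≤ x := by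
      calc _ ≤ (range x).card := by
            apply card_le_card
            intro s hs
            rw [mem_filter] at hs
            rw [mem_range]
            omega
        _ = x := card_range x
    have h6 : (S.filter fun s => x ≤ s).card + (S.filter fun s => ¬ x ≤ s).card = S.card :=
      card_filter_add_card_filter_not _
    omega
  have h4 : U.card * (S.card - N') ≤ ∑ b ∈ range N, (U.filter fun x => x + b ∈ S).card := by
    rw [h2]
    calc U.card * (S.card - N') = ∑ x ∈ U, (S.card - N') := by rw [sum_const, smul_eq_mul]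
      _ ≤ _ := sum_le_sum h3
  have h5 : N ≤ 2 * q * (S.card - N') := by
    have h6 : 2 * q * (S.card - N') = 2 * (q * S.card) - 2 * q * N' := by
      rw [Nat.mul_sub]; congr 1; ring
    omega
  have h6 : N * U.card ≤ 2 * q * ∑ b ∈ range N, (U.filter fun x => x + b ∈ S).card := by
    calc N * U.card ≤ 2 * q * (S.card - N') * U.card := Nat.mul_le_mul_right _ h5
      _ = 2 * q * (U.card * (S.card - N')) := by ring
      _ ≤ _ := Nat.mul_le_mul_left _ h4
  omega

section
variable {K : Type} [Field K]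

/-- Finitely many translates. -/
theorem cover (N N' q L : ℕ) (hN0 : 0 < N) (f : K[X]) (hf0 : f ≠ 0) (hf : Easy L f) (S : Finset ℕ)
    (hS : ∀ s ∈ S, s < N ∧ f.eval (s : K) = 0) (hN : 2 * q * N' ≤ N) (hq : N ≤ q * S.card)
    (k : ℕ) : ∃ (F : K[X]) (U : Finset ℕ), F ≠ 0 ∧ Easy (k * (L + 2)) F ∧ (∀ x ∈ U, x < N') ∧
      (∀ x : ℕ, x < N' → x ∈ U ∨ F.eval (x : K) = 0) ∧
      U.card * (2 * q) ^ k ≤ (2 * q - 1) ^ k * N' := by
  induction k with
  | zero =>
    refine ⟨C 1, range N', by simp, by simpa using easy_C (1 : K), by simp, ?_, by simp⟩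
    intro x hx
    exact Or.inl (mem_range.2 hx)
  | succ k ih =>
    obtain ⟨F, U, hF0, hF, hU, hcov, hcard⟩ := ih
    obtain ⟨b, hb⟩ := shift_exists N N' q hN0 S U (fun s hs => (hS s hs).1) hU hN hq
    refine ⟨F * f.comp (X + C (b : K)), U.filter fun x => ¬ (x + b ∈ S), ?_, ?_, ?_, ?_, ?_⟩
    · apply mul_ne_zero hF0
      intro h
      have h1 : (f.comp (X + C (b : K))).comp (X - C (b : K)) = 0 := by rw [h]; simp
      rw [comp_assoc] at h1
      simp at h1
      exact hf0 h1
    · have h1 : Easy 1 (X + C (b : K)) := by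
        have := Easy.op Op.add (easy_X (K := K)) (easy_C (b : K))
        simpa [Op.app] using this
      have h2 := Easy.op Op.mul hF (Easy.comp hf h1)
      simp only [Op.app] at h2
      exact h2.mono (by ring_nf; omega)
    · intro x hx
      exact hU x (mem_filter.1 hx).1
    · intro x hx
      rcases hcov x hx with h | h
      · by_cases hxb : x + b ∈ S
        · right
          rw [eval_mul, eval_comp]
          have := (hS _ hxb).2
          push_cast at this
          simp [this]
        · left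
          exact mem_filter.2 ⟨h, hxb⟩
      · right
        rw [eval_mul, h, zero_mul]
    · have h1 : (U.filter fun x => x + b ∈ S).card + (U.filter fun x => ¬ (x + b ∈ S)).card =
          U.card := card_filter_add_card_filter_not _
      have h2 : (U.filter fun x => ¬ (x + b ∈ S)).card * (2 * q) ≤ (2 * q - 1) * U.card := by
        have h3 : (2 * q - 1) * U.card = 2 * q * U.card - U.card := by
          rw [Nat.sub_mul, one_mul]
        have h4 : 2 * q * U.card = 2 * q * (U.filter fun x => x + b ∈ S).card +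
            2 * q * (U.filter fun x => ¬ (x + b ∈ S)).card := by
          rw [← Nat.mul_add, h1]
        rw [h3, mul_comm]
        omega
      calc (U.filter fun x => ¬ (x + b ∈ S)).card * (2 * q) ^ (k + 1)
          = ((U.filter fun x => ¬ (x + b ∈ S)).card * (2 * q)) * (2 * q) ^ k := by
            rw [pow_succ]; ring
        _ ≤ ((2 * q - 1) * U.card) * (2 * q) ^ k := Nat.mul_le_mul_right _ h2
        _ = (2 * q - 1) * (U.card * (2 * q) ^ k) := by ring
        _ ≤ (2 * q - 1) * ((2 * q - 1) ^ k * N') := Nat.mul_le_mul_left _ hcard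
        _ = _ := by rw [pow_succ]; ring

/-- From a dense set of roots in `[0, N)` to all of `[0, 2 ^ m)`. -/
theorem dense_to_full (N m q L : ℕ) (hN0 : 0 < N) (f : K[X]) (hf0 : f ≠ 0) (hf : Easy L f)
    (S : Finset ℕ) (hS : ∀ s ∈ S, s < N ∧ f.eval (s : K) = 0) (hN : 2 * q * 2 ^ m ≤ N)
    (hq : N ≤ q * S.card) : ∃ F : K[X], F ≠ 0 ∧ Easy (2 * q * (m + 1) * (L + 2)) F ∧
      ∀ x : ℕ, x < 2 ^ m → F.eval (x : K) = 0 := by
  obtain ⟨F, U, hF0, hF, hU, hcov, hcard⟩ := cover N (2 ^ m) q L hN0 f hf0 hf S hS hN hq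
    ((m + 1) * (2 * q))
  have hq0 : 0 < q := by
    rcases Nat.eq_zero_or_pos q with h | h
    · subst h; omega
    · exact h
  refine ⟨F, hF0, hF.mono (by ring_nf; omega), ?_⟩
  intro x hx
  rcases hcov x hx with h | h
  · exfalso
    have h1 := pow_ineq (2 * q) (by omega) (m + 1)
    have h2 : 0 < U.card := card_pos.2 ⟨x, h⟩
    have h3 : 0 < (2 * q) ^ ((m + 1) * (2 * q)) := by positivity
    have h4 : 2 * ((2 * q - 1) ^ ((m + 1) * (2 * q)) * 2 ^ m) ≤
        (2 * q) ^ ((m + 1) * (2 * q)) := by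
      calc _ = 2 ^ (m + 1) * (2 * q - 1) ^ ((m + 1) * (2 * q)) := by rw [pow_succ]; ring
        _ ≤ _ := h1
    have h5 : (2 * q) ^ ((m + 1) * (2 * q)) ≤ U.card * (2 * q) ^ ((m + 1) * (2 * q)) :=
      Nat.le_mul_of_pos_left _ h2
    omega
  · exact h

end

/-! ### growth -/

theorem growth (q : Polynomial ℕ) : ∀ B : ℕ, ∃ c : ℕ, ∀ n, c ≤ n → B * q.eval (2 * n) ≤ 2 ^ n := by
  induction q using Polynomial.induction_on' with
  | add p q hp hq =>
    intro B
    obtain ⟨c, hc⟩ := hp (2 * B)
    obtain ⟨c', hc'⟩ := hq (2 * B)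
    refine ⟨max c c', fun n hn => ?_⟩
    have h1 := hc n (le_trans (le_max_left _ _) hn)
    have h2 := hc' n (le_trans (le_max_right _ _) hn)
    rw [eval_add]
    have h3 : B * (eval (2 * n) p + eval (2 * n) q) * 2 =
      2 * B * eval (2 * n) p + 2 * B * eval (2 * n) q := by ring
    omega
  | monomial k a =>
    intro B
    have h := tendsto_pow_const_div_const_pow_of_one_lt k (r := (2 : ℝ)) (by norm_num)
    have h1 : (0 : ℝ) < 1 / ((B * a * 2 ^ k : ℕ) + 1) := by positivity
    obtain ⟨c, hc⟩ := Filter.eventually_atTop.1 (h.eventually (gt_mem_nhds h1))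
    refine ⟨c, fun n hn => ?_⟩
    have h2 := hc n hn
    rw [div_lt_div_iff₀ (by positivity) (by positivity), one_mul] at h2
    rw [eval_monomial]
    have h3 : ((B * a * 2 ^ k : ℕ) : ℝ) * (n : ℝ) ^ k ≤ 2 ^ n := by
      have : (0 : ℝ) ≤ (n : ℝ) ^ k := by positivity
      linarith
    have h4 : (B * a * 2 ^ k) * n ^ k ≤ 2 ^ n := by exact_mod_cast h3
    calc B * (a * (2 * n) ^ k) = (B * a * 2 ^ k) * n ^ k := by rw [mul_pow]; ring
      _ ≤ _ := h4

/-! ### primes -/

theorem prime_dense (n : ℕ) (hn : 3 ≤ n) :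
    2 ^ n ≤ 2 * n * ((range (2 ^ n)).filter fun k => k.Prime).card := by
  have h1 := Chebyshev.pi_ge (2 ^ n)
  have hlog : Real.log ((2 ^ n : ℕ) : ℝ) = n * Real.log 2 := by
    push_cast
    rw [Real.log_pow]
  have hl2 : 0 < Real.log 2 := Real.log_pos (by norm_num)
  have hn0 : (0 : ℝ) < n := by
    have : 0 < n := by omega
    exact_mod_cast this
  have h2 : Real.log (((2 ^ n : ℕ) : ℝ) + 1) ≤ (n + 1) * Real.log 2 := by
    have : ((2 ^ n : ℕ) : ℝ) + 1 ≤ 2 ^ (n + 1) := by
      push_cast
      rw [pow_succ]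
      have : (1 : ℝ) ≤ 2 ^ n := one_le_pow₀ (by norm_num)
      linarith
    calc Real.log (((2 ^ n : ℕ) : ℝ) + 1) ≤ Real.log (2 ^ (n + 1)) :=
          Real.log_le_log (by positivity) this
      _ = _ := by rw [Real.log_pow]; push_cast; ring
  rw [hlog, div_le_iff₀ (by positivity)] at h1
  have h3 : ((2 ^ n : ℕ) : ℝ) - (n + 1) ≤ (Nat.primeCounting (2 ^ n) : ℝ) * n := by
    have h4 : (((2 ^ n : ℕ) : ℝ) - (n + 1)) * Real.log 2 ≤
        ((Nat.primeCounting (2 ^ n) : ℝ) * n) * Real.log 2 := by
      calc (((2 ^ n : ℕ) : ℝ) - (n + 1)) * Real.log 2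
          = ((2 ^ n : ℕ) : ℝ) * Real.log 2 - (n + 1) * Real.log 2 := by ring
        _ ≤ ((2 ^ n : ℕ) : ℝ) * Real.log 2 - Real.log (((2 ^ n : ℕ) : ℝ) + 1) := by linarith
        _ ≤ _ := h1
        _ = _ := by ring
    exact le_of_mul_le_mul_right h4 hl2
  have h5 : 2 ^ n ≤ Nat.primeCounting (2 ^ n) * n + (n + 1) := by
    have : ((2 ^ n : ℕ) : ℝ) ≤ ((Nat.primeCounting (2 ^ n) * n + (n + 1) : ℕ) : ℝ) := by
      push_cast
      push_cast at h3
      linarith
    exact_mod_cast this
  have h6 : 2 * (n + 1) ≤ 2 ^ n := by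
    clear h1 hlog hl2 hn0 h2 h3 h5
    induction n, hn using Nat.le_induction with
    | base => norm_num
    | succ n hn ih => rw [pow_succ]; omega
  have h7 : ((range (2 ^ n)).filter fun k => k.Prime).card = Nat.primeCounting (2 ^ n) := by
    rw [Nat.primeCounting_eq_primeCounting'_succ, ← Nat.primesBelow_card_eq_primeCounting']
    congr 1
    ext k
    simp only [mem_filter, mem_range, Nat.mem_primesBelow]
    constructor
    · rintro ⟨h, hp⟩; exact ⟨by omega, hp⟩
    · rintro ⟨h, hp⟩
      refine ⟨?_, hp⟩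
      rcases Nat.lt_or_ge k (2 ^ n) with h' | h'
      · exact h'
      · exfalso
        have : k = 2 ^ n := by omega
        subst this
        have := hp.eq_one_of_pow
        omega
  rw [h7]
  have h8 : 2 * n * Nat.primeCounting (2 ^ n) = 2 * (Nat.primeCounting (2 ^ n) * n) := by ring
  omega

end Pool.Agent.TQ
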