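import Pool.Agent.Lib_helper12.TQ.Generic

/-!
# The number of sets of integers cut out by polynomials of small complexity
-/

set_option autoImplicit false

namespace Pool.Agent.TQ

open Polynomial Finset
open scoped Classical

/-! ### zero patterns -/

section patterns
variable {ι : Type} [Fintype ι]

/-- The number of zero patterns of `m` polynomials of degree at most `d` in `ι` variables. -/
theorem zero_patterns (m d : ℕ) (P : ℕ → MvPolynomial ι ℂ) (hP : ∀ k, (P k).totalDegree ≤ d)
    (F : Finset (Finset ℕ)) (hF : ∀ Z ∈ F, Z ⊆ range m ∧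
      ∃ c : ι → ℂ, ∀ k, k < m → (MvPolynomial.eval c (P k) = 0 ↔ k ∈ Z)) :
    F.card ≤ (m * d + 1) ^ Fintype.card ι := by
  choose! c hc using fun Z (hZ : Z ∈ F) => (hF Z hZ).2
  let h : Finset ℕ → MvPolynomial ι ℂ := fun Z => ∏ k ∈ (range m).filter (fun k => k ∉ Z), P k
  have heval : ∀ Z ∈ F, ∀ Z' ∈ F, MvPolynomial.eval (c Z') (h Z) ≠ 0 ↔ Z' ⊆ Z := by
    intro Z hZ Z' hZ'
    simp only [h]
    rw [map_prod, Finset.prod_ne_zero_iff]
    constructor
    · intro hh k hk
      by_contra hne
      have hkm := mem_range.1 ((hF Z' hZ').1 hk)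
      exact hh k (mem_filter.2 ⟨mem_range.2 hkm, hne⟩) ((hc Z' hZ' k hkm).2 hk)
    · intro hsub k hk h0
      rw [mem_filter, mem_range] at hk
      exact hk.2 (hsub ((hc Z' hZ' k hk.1).1 h0))
  have hdeg : ∀ Z, (h Z).totalDegree ≤ m * d := by
    intro Z
    refine (MvPolynomial.totalDegree_finsetProd _ _).trans ?_
    calc ∑ k ∈ (range m).filter (fun k => k ∉ Z), (P k).totalDegree
        ≤ ∑ k ∈ (range m).filter (fun k => k ∉ Z), d := sum_le_sum fun k _ => hP k
      _ = ((range m).filter (fun k => k ∉ Z)).card * d := by rw [sum_const, smul_eq_mul]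
      _ ≤ m * d := by
          apply Nat.mul_le_mul_right
          calc _ ≤ (range m).card := card_filter_le _ _
            _ = m := card_range m
  -- linear independence of the coefficient vectors
  let w : F → (ι → Fin (m * d + 1)) → ℂ := fun Z e =>
    MvPolynomial.coeff (Finsupp.equivFunOnFinite.symm fun i => (e i).1) (h Z.1)
  have hli : LinearIndependent ℂ w := by
    rw [Fintype.linearIndependent_iff]
    intro a ha
    by_contra hcon
    push Not at hcon
    -- the linear combination vanishes
    have hzero : ∑ Z : F, a Z • h Z.1 = 0 := by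
      ext s
      rw [MvPolynomial.coeff_sum, MvPolynomial.coeff_zero]
      simp only [MvPolynomial.coeff_smul, smul_eq_mul]
      by_cases hs : ∀ i, s i ≤ m * d
      · have h1 := congrFun ha (fun i => ⟨s i, by have := hs i; omega⟩)
        simp only [Finset.sum_apply, Pi.smul_apply, smul_eq_mul, Pi.zero_apply, w] at h1
        have h2 : (Finsupp.equivFunOnFinite.symm fun i => s i) = s := by
          ext i; simp
        rw [h2] at h1
        exact h1
      · push Not at hs
        obtain ⟨i, hi⟩ := hs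
        apply Finset.sum_eq_zero
        intro Z _
        have : MvPolynomial.coeff s (h Z.1) = 0 := by
          apply MvPolynomial.coeff_eq_zero_of_totalDegree_lt
          refine lt_of_le_of_lt (hdeg Z.1) (lt_of_lt_of_le hi ?_)
          by_cases his : i ∈ s.support
          · exact single_le_sum (f := fun j => s j) (fun _ _ => Nat.zero_le _) his
          · rw [Finsupp.notMem_support_iff] at his
            omega
        rw [this, mul_zero]
    obtain ⟨Z1, hZ1⟩ := hcon
    obtain ⟨Z0, hZ0, hmax⟩ := exists_max_image ((univ : Finset F).filter fun Z => a Z ≠ 0)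
      (fun Z => Z.1.card) ⟨Z1, mem_filter.2 ⟨mem_univ _, hZ1⟩⟩
    rw [mem_filter] at hZ0
    have h1 := congrArg (MvPolynomial.eval (c Z0.1)) hzero
    rw [map_sum, map_zero, Finset.sum_eq_single Z0] at h1
    · rw [MvPolynomial.smul_eval] at h1
      rcases mul_eq_zero.1 h1 with h2 | h2
      · exact hZ0.2 h2
      · exact (heval Z0.1 Z0.2 Z0.1 Z0.2).2 (Subset.refl _) h2
    · intro Z _ hne
      rw [MvPolynomial.smul_eval]
      by_cases haZ : a Z = 0
      · rw [haZ, zero_mul]
      · have h3 : MvPolynomial.eval (c Z0.1) (h Z.1) = 0 := by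
          by_contra hne0
          have hsub := (heval Z.1 Z.2 Z0.1 Z0.2).1 hne0
          have hcard := hmax Z (mem_filter.2 ⟨mem_univ _, haZ⟩)
          exact hne (Subtype.ext (eq_of_subset_of_card_le hsub hcard).symm)
        rw [h3, mul_zero]
    · intro hh
      exact absurd (mem_univ _) hh
  have h1 := hli.fintype_card_le_finrank
  rw [Module.finrank_fintype_fun_eq_card, Fintype.card_fun, Fintype.card_fin,
    Fintype.card_coe] at h1
  exact h1

end patterns

/-! ### the universal program -/

section uni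
variable {R S : Type} [CommRing R] [CommRing S]

/-- a linear form in `1, t 0, ..., t i` -/
def lin (a : ℕ → R) (t : ℕ → R) (i : ℕ) : R := a 0 + ∑ j ∈ range (i + 1), a (j + 1) * t j

/-- The first `i + 1` values of the universal program with the parameters `c`, started at `x`. -/
def tab (c : ℕ → ℕ → ℕ → R) (x : R) : ℕ → ℕ → R
  | 0 => fun j => if j = 0 then x else 0
  | i + 1 => Function.update (tab c x i) (i + 1)
      (lin (c 0 i) (tab c x i) i * lin (c 1 i) (tab c x i) i + lin (c 2 i) (tab c x i) i)

theorem lin_map (φ : R →+* S) (a : ℕ → R) (t : ℕ → R) (i : ℕ) :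
    φ (lin a t i) = lin (fun j => φ (a j)) (fun j => φ (t j)) i := by
  simp [lin, map_add, map_sum, map_mul]

theorem tab_map (φ : R →+* S) (c : ℕ → ℕ → ℕ → R) (x : R) (i : ℕ) : ∀ j,
    φ (tab c x i j) = tab (fun a b e => φ (c a b e)) (φ x) i j := by
  induction i with
  | zero =>
    intro j
    by_cases hj : j = 0 <;> simp [tab, hj]
  | succ i ih =>
    intro j
    simp only [tab]
    by_cases hj : j = i + 1
    · subst hj
      simp only [Function.update_self, map_add, map_mul, lin_map]
      have e : (fun j => φ (tab c x i j)) = tab (fun a b e => φ (c a b e)) (φ x) i := funext ih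
      rw [e]
    · rw [Function.update_of_ne hj, Function.update_of_ne hj, ih]

theorem lin_congr {a a' : ℕ → R} (t : ℕ → R) (i : ℕ) (h : ∀ j, j ≤ i + 1 → a j = a' j) :
    lin a t i = lin a' t i := by
  unfold lin
  rw [h 0 (by omega)]
  congr 1
  apply sum_congr rfl
  intro j hj
  rw [mem_range] at hj
  rw [h (j + 1) (by omega)]

theorem tab_congr {c c' : ℕ → ℕ → ℕ → R} (x : R) (i : ℕ)
    (h : ∀ a b e, a < 3 → b < i → e ≤ b + 1 → c a b e = c' a b e) : tab c x i = tab c' x i := by
  induction i with
  | zero => rfl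
  | succ i ih =>
    simp only [tab]
    rw [ih (fun a b e ha hb he => h a b e ha (by omega) he)]
    rw [lin_congr (a := c 0 i) (a' := c' 0 i) _ _ (fun j hj => h 0 i j (by omega) (by omega) hj),
      lin_congr (a := c 1 i) (a' := c' 1 i) _ _ (fun j hj => h 1 i j (by omega) (by omega) hj),
      lin_congr (a := c 2 i) (a' := c' 2 i) _ _ (fun j hj => h 2 i j (by omega) (by omega) hj)]

theorem tab_zero (c : ℕ → ℕ → ℕ → R) (x : R) (i : ℕ) : ∀ j, i < j → tab c x i j = 0 := by
  induction i with
  | zero => intro j hj; simp only [tab]; rw [if_neg (by omega)]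
  | succ i ih =>
    intro j hj
    simp only [tab]
    rw [Function.update_of_ne (by omega)]
    exact ih j (by omega)

end uni

/-- All polynomials on the list of a program are linear forms in the universal program. -/
theorem SL.univ {l : List ℂ[X]} (hl : SL l) : ∀ i, l.length = i + 1 → ∃ c : ℕ → ℕ → ℕ → ℂ,
    ∀ f, Av l f → ∃ a : ℕ → ℂ, (∀ j, i + 1 < j → a j = 0) ∧
      ∀ y, f.eval y = lin a (tab c y i) i := by
  have hconst : ∀ (i : ℕ) (c : ℕ → ℕ → ℕ → ℂ) (u : ℂ), ∃ a : ℕ → ℂ, (∀ j, i + 1 < j → a j = 0) ∧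
      ∀ y, (C u : ℂ[X]).eval y = lin a (tab c y i) i := by
    intro i c u
    refine ⟨fun j => if j = 0 then u else 0, fun j hj => ?_, fun y => ?_⟩
    · simp only; rw [if_neg (by omega)]
    · simp [lin]
  induction hl with
  | start =>
    intro i hi
    have : i = 0 := by simpa using hi.symm
    subst this
    refine ⟨fun _ _ _ => 0, ?_⟩
    intro f hf
    rcases hf with hf | ⟨u, rfl⟩
    · have : f = X := by simpa using hf
      subst this
      refine ⟨fun j => if j = 1 then 1 else 0, fun j hj => ?_, fun y => ?_⟩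
      · simp only; rw [if_neg (by omega)]
      · simp [lin, tab]
    · exact hconst _ _ u
  | @step l f g o hl hf hg ih =>
    intro i hi
    obtain ⟨i', rfl⟩ : ∃ i', i = i' + 1 := by
      cases l with
      | nil => cases hl
      | cons a l => exact ⟨l.length, by simp at hi; omega⟩
    obtain ⟨c, hc⟩ := ih i' (by simpa using hi)
    obtain ⟨a1, ha1, hf1⟩ := hc f hf
    obtain ⟨a2, ha2, hg2⟩ := hc g hg
    -- the new parameters
    let n0 : ℕ → ℂ := match o with
      | .mul => a1
      | _ => fun _ => 0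
    let n1 : ℕ → ℂ := match o with
      | .mul => a2
      | _ => fun _ => 0
    let n2 : ℕ → ℂ := match o with
      | .mul => fun _ => 0
      | .add => fun j => a1 j + a2 j
      | .sub => fun j => a1 j - a2 j
    let c' : ℕ → ℕ → ℕ → ℂ := fun a b e => if b = i' then
      (if a = 0 then n0 e else if a = 1 then n1 e else n2 e) else c a b e
    have htab : ∀ y, tab c' y i' = tab c y i' := by
      intro y
      apply tab_congr
      intro a b e _ hb _
      simp only [c']
      rw [if_neg (by omega)]
    have hnew : ∀ y, tab c' y (i' + 1) (i' + 1) = (o.app f g).eval y := by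
      intro y
      simp only [tab, Function.update_self]
      rw [htab]
      have e0 : c' 0 i' = n0 := by funext e; simp [c']
      have e1 : c' 1 i' = n1 := by funext e; simp [c']
      have e2 : c' 2 i' = n2 := by funext e; simp [c']
      rw [e0, e1, e2, app_eval, hf1, hg2]
      cases o
      · simp only [n0, n1, n2, Op.app, lin, zero_mul, sum_const_zero, add_zero, mul_zero, zero_add,
          add_mul, sum_add_distrib]
        ring
      · simp only [n0, n1, n2, Op.app, lin, zero_mul, sum_const_zero, add_zero, mul_zero, zero_add,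
          sub_mul, sum_sub_distrib]
        ring
      · simp only [n0, n1, n2, Op.app, lin, zero_mul, sum_const_zero, add_zero]
    have hold : ∀ y j, j ≤ i' → tab c' y (i' + 1) j = tab c y i' j := by
      intro y j hj
      simp only [tab]
      rw [Function.update_of_ne (by omega), htab]
    refine ⟨c', ?_⟩
    intro q hq
    rcases hq with hq | ⟨u, rfl⟩
    · rcases List.mem_cons.1 hq with rfl | hq
      · refine ⟨fun j => if j = i' + 2 then 1 else 0, fun j hj => ?_, fun y => ?_⟩
        · simp only; rw [if_neg (by omega)]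
        · rw [← hnew y, lin, sum_range_succ]
          have h0 : ∑ j ∈ range (i' + 1), (if j + 1 = i' + 2 then (1 : ℂ) else 0) *
              tab c' y (i' + 1) j = 0 := by
            apply sum_eq_zero
            intro j hj
            rw [mem_range] at hj
            rw [if_neg (by omega), zero_mul]
          rw [h0]
          simp
      · obtain ⟨a, ha, hqa⟩ := hc q (Or.inl hq)
        refine ⟨a, fun j hj => ha j (by omega), fun y => ?_⟩
        rw [hqa y, lin, lin, sum_range_succ _ (i' + 1), ha (i' + 1 + 1) (by omega), zero_mul, add_zero]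
        congr 1
        apply sum_congr rfl
        intro j hj
        rw [mem_range] at hj
        rw [hold y j (by omega)]
    · exact hconst _ _ u

/-- persistence -/
theorem tab_le {R : Type} [CommRing R] (c : ℕ → ℕ → ℕ → R) (x : R) (i j : ℕ) (hj : j ≤ i) :
    ∀ L, i ≤ L → tab c x L j = tab c x i j := by
  intro L hL
  induction L, hL using Nat.le_induction with
  | base => rfl
  | succ L hL ih =>
    simp only [tab]
    rw [Function.update_of_ne (by omega)]
    exact ih

/-- Every polynomial of complexity at most `L` is the last value of the universal program. -/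
theorem Easy.univ {L : ℕ} {f : ℂ[X]} (hf : Easy L f) : ∃ c : ℕ → ℕ → ℕ → ℂ,
    ∀ y, f.eval y = tab c y (L + 1) (L + 1) := by
  obtain ⟨l, hl, hf', hlen⟩ := hf
  obtain ⟨i, hi⟩ : ∃ i, l.length = i + 1 := by
    cases l with
    | nil => cases hl
    | cons a l => exact ⟨l.length, rfl⟩
  obtain ⟨c, hc⟩ := hl.univ i hi
  obtain ⟨a, ha, hfa⟩ := hc f hf'
  let c' : ℕ → ℕ → ℕ → ℂ := fun u b e => if b = L then (if u = 2 then a e else 0) else c u b e
  refine ⟨c', fun y => ?_⟩
  have htab : tab c' y L = tab c y L := by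
    apply tab_congr
    intro u b e _ hb _
    simp only [c']
    rw [if_neg (by omega)]
  have e0 : c' 0 L = fun _ => 0 := by funext e; simp [c']
  have e1 : c' 1 L = fun _ => 0 := by funext e; simp [c']
  have e2 : c' 2 L = a := by funext e; simp [c']
  simp only [tab, Function.update_self]
  rw [htab, e0, e1, e2, hfa y]
  have h0 : lin (fun _ : ℕ => (0 : ℂ)) (tab c y L) L = 0 := by simp [lin]
  rw [h0, zero_mul, zero_add]
  have key : ∀ M, i ≤ M → lin a (tab c y M) M = lin a (tab c y i) i := by
    intro M hM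
    induction M, hM using Nat.le_induction with
    | base => rfl
    | succ M hM ih =>
      rw [← ih, lin, lin, sum_range_succ, ha (M + 1 + 1) (by omega), zero_mul, add_zero]
      congr 1
      apply sum_congr rfl
      intro j hj
      rw [mem_range] at hj
      rw [tab_le c y M j (by omega) (M + 1) (by omega)]
  exact (key L (by omega)).symm

/-! ### the number of patterns of easy polynomials -/

/-- the generic parameters -/
noncomputable def gen (L : ℕ) (a b e : ℕ) : MvPolynomial (Fin 3 × Fin (L + 1) × Fin (L + 2)) ℂ :=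
  if h : a < 3 ∧ b < L + 1 ∧ e < L + 2 then MvPolynomial.X (⟨a, h.1⟩, ⟨b, h.2.1⟩, ⟨e, h.2.2⟩) else 0

theorem gen_deg (L a b e : ℕ) : (gen L a b e).totalDegree ≤ 1 := by
  unfold gen
  split_ifs with h
  · rw [MvPolynomial.totalDegree_X]
  · simp

theorem lin_deg {ι : Type} (a t : ℕ → MvPolynomial ι ℂ) (i D : ℕ) (ha : ∀ j, (a j).totalDegree ≤ 1)
    (ht : ∀ j, (t j).totalDegree ≤ D) : (lin a t i).totalDegree ≤ D + 1 := by
  unfold lin
  refine (MvPolynomial.totalDegree_add _ _).trans (max_le ((ha 0).trans (by omega)) ?_)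
  refine MvPolynomial.totalDegree_finsetSum_le ?_
  intro j _
  refine (MvPolynomial.totalDegree_mul _ _).trans ?_
  have := ha (j + 1)
  have := ht j
  omega

theorem tab_deg (L : ℕ) (x : MvPolynomial (Fin 3 × Fin (L + 1) × Fin (L + 2)) ℂ)
    (hx : x.totalDegree = 0) (i : ℕ) : ∀ j, (tab (gen L) x i j).totalDegree + 2 ≤ 2 ^ (i + 1) := by
  induction i with
  | zero =>
    intro j
    by_cases hj : j = 0 <;> simp [tab, hj, hx]
  | succ i ih =>
    intro j
    simp only [tab]
    have hD : ∀ j, (tab (gen L) x i j).totalDegree ≤ 2 ^ (i + 1) - 2 := fun j => by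
      have := ih j; omega
    have h2 : 2 ≤ 2 ^ (i + 1) := by
      have := ih 0; omega
    by_cases hj : j = i + 1
    · subst hj
      rw [Function.update_self]
      have h1 := lin_deg (gen L 0 i) (tab (gen L) x i) i _ (gen_deg L 0 i) hD
      have h3 := lin_deg (gen L 1 i) (tab (gen L) x i) i _ (gen_deg L 1 i) hD
      have h4 := lin_deg (gen L 2 i) (tab (gen L) x i) i _ (gen_deg L 2 i) hD
      have h5 := MvPolynomial.totalDegree_mul (lin (gen L 0 i) (tab (gen L) x i) i)
        (lin (gen L 1 i) (tab (gen L) x i) i)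
      have h6 := MvPolynomial.totalDegree_add (lin (gen L 0 i) (tab (gen L) x i) i *
        lin (gen L 1 i) (tab (gen L) x i) i) (lin (gen L 2 i) (tab (gen L) x i) i)
      rw [pow_succ 2 (i + 1)]
      rcases le_max_iff.1 h6 with h7 | h7 <;> omega
    · rw [Function.update_of_ne hj]
      have := ih j
      rw [pow_succ 2 (i + 1)]
      omega

/-- the roots of `f` among `0, ..., m - 1` -/
noncomputable def rts (m : ℕ) (f : ℂ[X]) : Finset ℕ := (range m).filter fun k => f.eval (k : ℂ) = 0

theorem pattern_count (m L : ℕ) (F : Finset (Finset ℕ))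
    (hF : ∀ Z ∈ F, ∃ f : ℂ[X], Easy L f ∧ Z = rts m f) :
    F.card ≤ (m * 2 ^ (L + 2) + 1) ^ (3 * ((L + 1) * (L + 2))) := by
  have h := zero_patterns (ι := Fin 3 × Fin (L + 1) × Fin (L + 2)) m (2 ^ (L + 2))
    (fun k => tab (gen L) (MvPolynomial.C (k : ℂ)) (L + 1) (L + 1)) (fun k => by
      have := tab_deg L (MvPolynomial.C (k : ℂ)) (MvPolynomial.totalDegree_C _) (L + 1) (L + 1)
      have e : 2 ^ (L + 1 + 1) = 2 ^ (L + 2) := rfl
      omega) F ?_
  · simpa [Fintype.card_prod, Fintype.card_fin] using h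
  · intro Z hZ
    obtain ⟨f, hf, rfl⟩ := hF Z hZ
    refine ⟨filter_subset _ _, ?_⟩
    obtain ⟨c, hc⟩ := hf.univ
    refine ⟨fun t => c t.1.1 t.2.1.1 t.2.2.1, fun k hk => ?_⟩
    rw [tab_map (MvPolynomial.eval fun t : Fin 3 × Fin (L + 1) × Fin (L + 2) =>
      c t.1.1 t.2.1.1 t.2.2.1) (gen L) (MvPolynomial.C (k : ℂ)) (L + 1) (L + 1)]
    have e : tab (fun a b e => (MvPolynomial.eval fun t : Fin 3 × Fin (L + 1) × Fin (L + 2) =>
        c t.1.1 t.2.1.1 t.2.2.1) (gen L a b e))
        ((MvPolynomial.eval fun t : Fin 3 × Fin (L + 1) × Fin (L + 2) =>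
        c t.1.1 t.2.1.1 t.2.2.1) (MvPolynomial.C (k : ℂ))) (L + 1) = tab c (k : ℂ) (L + 1) := by
      rw [MvPolynomial.eval_C]
      apply tab_congr
      intro a b e ha hb he
      unfold gen
      rw [dif_pos ⟨ha, hb, by omega⟩, MvPolynomial.eval_X]
    rw [e, ← hc]
    simp only [rts, mem_filter, mem_range]
    exact ⟨fun h => ⟨hk, h⟩, fun h => h.2⟩

/-! ### subsets of a fixed size -/

theorem choose_half (N M : ℕ) : 2 ^ M * N.choose M ≤ (2 * N).choose M := by
  have h1 : ∀ M, 2 ^ M * N.descFactorial M ≤ (2 * N).descFactorial M := by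
    intro M
    induction M with
    | zero => simp
    | succ M ih =>
      rw [Nat.descFactorial_succ, Nat.descFactorial_succ, pow_succ]
      calc 2 ^ M * 2 * ((N - M) * N.descFactorial M)
          = (2 * (N - M)) * (2 ^ M * N.descFactorial M) := by ring
        _ ≤ (2 * N - M) * (2 * N).descFactorial M := Nat.mul_le_mul (by omega) ih
  have h2 := h1 M
  rw [Nat.descFactorial_eq_factorial_mul_choose, Nat.descFactorial_eq_factorial_mul_choose] at h2
  have h3 : M.factorial * (2 ^ M * N.choose M) ≤ M.factorial * (2 * N).choose M := by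
    calc _ = 2 ^ M * (M.factorial * N.choose M) := by ring
      _ ≤ _ := h2
  exact Nat.le_of_mul_le_mul_left h3 (Nat.factorial_pos M)

/-- If many sets of size `M` are contained in the set of roots of a polynomial of complexity at most
`L`, then one of these polynomials has more than `2 ^ (n - 1)` roots. -/
theorem many_sets (n L M r : ℕ) (hn : 1 ≤ n) (hM : M ≤ 2 ^ n)
    (hMr : r + (n + L + 3) * (3 * ((L + 1) * (L + 2))) < M)
    (𝒜 : Finset (Finset ℕ)) (hA : ∀ A ∈ 𝒜, A ∈ powersetCard M (range (2 ^ n)) ∧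
      ∃ f : ℂ[X], f ≠ 0 ∧ Easy L f ∧ ∀ k ∈ A, f.eval (k : ℂ) = 0)
    (hcard : (2 ^ n).choose M ≤ 2 ^ r * 𝒜.card) :
    ∃ f : ℂ[X], f ≠ 0 ∧ Easy L f ∧ 2 ^ n ≤ 2 * (rts (2 ^ n) f).card := by
  by_contra hcon
  push Not at hcon
  set F : Finset (Finset ℕ) := ((range (2 ^ n)).powerset).filter fun Z =>
    ∃ f : ℂ[X], f ≠ 0 ∧ Easy L f ∧ Z = rts (2 ^ n) f with hFdef
  have hF := pattern_count (2 ^ n) L F (fun Z hZ => by
    obtain ⟨f, _, hf, he⟩ := (mem_filter.1 hZ).2
    exact ⟨f, hf, he⟩)
  have hsub : 𝒜 ⊆ F.biUnion fun Z => powersetCard M Z := by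
    intro A hAm
    obtain ⟨h1, f, hf0, hf, hz⟩ := hA A hAm
    rw [mem_powersetCard] at h1
    rw [mem_biUnion]
    refine ⟨rts (2 ^ n) f, ?_, ?_⟩
    · rw [hFdef, mem_filter, mem_powerset]
      exact ⟨filter_subset _ _, f, hf0, hf, rfl⟩
    · rw [mem_powersetCard]
      refine ⟨fun k hk => ?_, h1.2⟩
      rw [rts, mem_filter]
      exact ⟨h1.1 hk, hz k hk⟩
  have e2 : 2 ^ n = 2 * 2 ^ (n - 1) := by
    rw [← pow_succ']; congr 1; omega
  have h1 : 𝒜.card ≤ F.card * (2 ^ (n - 1)).choose M := by
    calc 𝒜.card ≤ _ := card_le_card hsub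
      _ ≤ ∑ Z ∈ F, (powersetCard M Z).card := card_biUnion_le
      _ ≤ ∑ Z ∈ F, (2 ^ (n - 1)).choose M := by
          apply sum_le_sum
          intro Z hZ
          rw [card_powersetCard]
          obtain ⟨f, hf0, hf, rfl⟩ := (mem_filter.1 hZ).2
          have := hcon f hf0 hf
          exact Nat.choose_le_choose _ (by omega)
      _ = _ := by rw [sum_const, smul_eq_mul]
  have h2 := choose_half (2 ^ (n - 1)) M
  rw [← e2] at h2
  have h3 : F.card ≤ 2 ^ ((n + L + 3) * (3 * ((L + 1) * (L + 2)))) := by
    refine hF.trans ?_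
    rw [pow_mul 2 (n + L + 3)]
    apply Nat.pow_le_pow_left
    have e3 : 2 ^ n * 2 ^ (L + 2) = 2 ^ (n + L + 2) := by rw [← pow_add]; congr 1
    have e4 : 2 ^ (n + L + 3) = 2 * 2 ^ (n + L + 2) := by rw [← pow_succ']
    have e5 : 0 < 2 ^ (n + L + 2) := by positivity
    omega
  have hpos : 0 < (2 ^ n).choose M := Nat.choose_pos hM
  have h4 : 2 ^ M * (2 ^ n).choose M ≤
      2 ^ (r + (n + L + 3) * (3 * ((L + 1) * (L + 2)))) * (2 ^ n).choose M := by
    calc 2 ^ M * (2 ^ n).choose M ≤ 2 ^ M * (2 ^ r * 𝒜.card) := Nat.mul_le_mul_left _ hcard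
      _ ≤ 2 ^ M * (2 ^ r * (2 ^ ((n + L + 3) * (3 * ((L + 1) * (L + 2)))) *
            (2 ^ (n - 1)).choose M)) := by
          apply Nat.mul_le_mul_left
          apply Nat.mul_le_mul_left
          exact h1.trans (Nat.mul_le_mul_right _ h3)
      _ = 2 ^ (r + (n + L + 3) * (3 * ((L + 1) * (L + 2)))) *
            (2 ^ M * (2 ^ (n - 1)).choose M) := by rw [pow_add 2 r]; ring
      _ ≤ _ := Nat.mul_le_mul_left _ h2
  have h5 := Nat.le_of_mul_le_mul_right h4 hpos
  have h6 := (Nat.pow_le_pow_iff_right (a := 2) (by norm_num)).1 h5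
  omega

end Pool.Agent.TQ
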