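import Pool.Agent.Lib_helper12.TQ.Dense
import Pool.Agent.Lib_helper12.TQ.Patterns

/-!
# The implications
-/

set_option autoImplicit false

namespace Pool.Agent.TQ

open Polynomial Finset
open scoped Classical

/-- Nonzero polynomials of polynomial complexity which vanish at `0, ..., 2 ^ n - 1`. -/
def Full (K : Type) [Field K] : Prop :=
  ∃ p : Polynomial ℕ, ∀ n, 1 ≤ n → ∃ f : K[X], f ≠ 0 ∧ Easy (p.eval n) f ∧
    ∀ k : ℕ, k < 2 ^ n → f.eval (k : K) = 0

section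
variable {K : Type} [Field K]

/-- One tree. -/
theorem first_tree [CharZero K] {n L : ℕ} (hn : 1 ≤ n) (f : K[X]) (hf0 : f ≠ 0) (hf : Easy L f)
    (hz : ∀ k : ℕ, k < 2 ^ n → f.eval (k : K) = 0) (A : Set ℕ) :
    ∃ T : CTree K n 0, T.depth ≤ 2 + 2048 * n ^ 2 * (L + 3) ^ 2 ∧
      T.lang = firstIn K n {k | k < 2 ^ n ∧ k ∈ A} := by
  obtain ⟨T, hT, h⟩ := ident_full (⟨0, by omega⟩ : Fin n) n L f hf0 hf hz
    (fun j => if j ∈ A then Set.univ else ∅) 1 le_rfl (by
      intro j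
      by_cases hj : j ∈ A
      · simp only [hj, if_true]; exact decAll_univ
      · simp only [hj, if_false]; exact decAll_empty) 0
  refine ⟨T, ?_, ?_⟩
  · exact hT
  · ext x
    have h1 := h x Fin.elim0 trivial
    rw [CTree.lang, Set.mem_ofPred_eq, h1]
    simp only [firstIn, Set.mem_ofPred_eq]
    constructor
    · rintro ⟨j, hj, hx, hjA⟩
      refine ⟨⟨0, by omega⟩, rfl, j, ⟨hj, ?_⟩, hx⟩
      by_contra hne
      simp [hne] at hjA
    · rintro ⟨i, hi, j, ⟨hj, hjA⟩, hx⟩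
      have : i = ⟨0, by omega⟩ := Fin.ext hi
      rw [this] at hx
      exact ⟨j, hj, hx, by simp [hjA]⟩

theorem full_first [CharZero K] (h : Full K) (A : ℕ → Set ℕ) :
    Solvable K fun n => firstIn K n {k | k < 2 ^ n ∧ k ∈ A n} := by
  obtain ⟨p, hp⟩ := h
  refine ⟨2 + 2048 * X ^ 2 * (p + 3) ^ 2, fun n hn => ?_⟩
  obtain ⟨f, hf0, hf, hz⟩ := hp n hn
  obtain ⟨T, hT, h⟩ := first_tree hn f hf0 hf hz (A n)
  refine ⟨T, hT.trans ?_, h⟩
  simp

theorem full_TQ [CharZero K] (h : Full K) : Solvable K (TwentyQ K) := by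
  have h1 := full_first h (fun _ => Set.univ)
  have e : (fun n => firstIn K n {k | k < 2 ^ n ∧ k ∈ (Set.univ : Set ℕ)}) = TwentyQ K := by
    funext n
    simp [TwentyQ]
  rw [e] at h1
  exact h1

theorem full_grid [CharZero K] (h : Full K) (A : (n : ℕ) → Set (Fin n → ℕ)) :
    Solvable K fun n => {x | ∃ s ∈ A n, (∀ i, s i < 2 ^ n) ∧ ∀ i, x i = (s i : K)} := by
  obtain ⟨p, hp⟩ := h
  refine ⟨1 + X * (1 + 2048 * X ^ 2 * (p + 3) ^ 2), fun n hn => ?_⟩
  obtain ⟨f, hf0, hf, hz⟩ := hp n hn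
  obtain ⟨T, hT, h⟩ := grid (n := n) n (p.eval n) f hf0 hf hz (A n) 0
  refine ⟨T, ?_, ?_⟩
  · refine hT.trans ?_
    simp
  · ext x
    rw [CTree.lang, Set.mem_ofPred_eq, h x Fin.elim0 trivial]

/-- dense sets of roots are enough -/
theorem dense_full (h : ∃ p q : Polynomial ℕ, ∀ᶠ n in Filter.atTop, ∃ f : K[X], f ≠ 0 ∧
    Easy (p.eval n) f ∧
    2 ^ n ≤ q.eval n * ((range (2 ^ n)).filter fun k : ℕ => f.eval (k : K) = 0).card) :
    Full K := by
  obtain ⟨p, q, hpq⟩ := h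
  obtain ⟨c, hc⟩ := Filter.eventually_atTop.1 hpq
  obtain ⟨c', hc'⟩ := growth q 2
  set d := c + c' with hd
  refine ⟨2 * q.comp (2 * (X + C d)) * (X + 1) * (p.comp (2 * (X + C d)) + 2), fun m _ => ?_⟩
  obtain ⟨f, hf0, hf, hcard⟩ := hc (2 * (m + d)) (by omega)
  have h1 := hc' (m + d) (by omega)
  obtain ⟨F, hF0, hF, hz⟩ := dense_to_full (2 ^ (2 * (m + d))) m (q.eval (2 * (m + d)))
    (p.eval (2 * (m + d))) (by positivity) f hf0 hf
    ((range (2 ^ (2 * (m + d)))).filter fun k : ℕ => f.eval (k : K) = 0)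
    (fun s hs => ⟨mem_range.1 (mem_filter.1 hs).1, (mem_filter.1 hs).2⟩) (by
      calc 2 * q.eval (2 * (m + d)) * 2 ^ m ≤ 2 ^ (m + d) * 2 ^ m := Nat.mul_le_mul_right _ h1
        _ = 2 ^ (m + d + m) := by rw [pow_add 2 (m + d)]
        _ ≤ 2 ^ (2 * (m + d)) := Nat.pow_le_pow_right (by norm_num) (by omega)) hcard
  refine ⟨F, hF0, hF.mono ?_, hz⟩
  simp [eval_comp]

/-- from trees to polynomials -/
theorem trees_poly (h : ∃ p q : Polynomial ℕ, ∀ᶠ n in Filter.atTop, ∃ (T : CTree K n 0)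
    (z : Fin n → K), T.depth ≤ p.eval n ∧
    2 ^ n ≤ q.eval n * ((range (2 ^ n)).filter fun k : ℕ => setFirst z (k : K) ∈ T.lang).card ∧
    ((4 ^ p.eval n : ℕ) : ℕ∞) < Set.encard {y | setFirst z y ∉ T.lang}) :
    ∃ p q : Polynomial ℕ, ∀ᶠ n in Filter.atTop, ∃ f : K[X], f ≠ 0 ∧ Easy (p.eval n) f ∧
      2 ^ n ≤ q.eval n * ((range (2 ^ n)).filter fun k : ℕ => f.eval (k : K) = 0).card := by
  obtain ⟨p, q, h⟩ := h
  refine ⟨2 * p, q, h.mono ?_⟩
  rintro n ⟨T, z, hT, hcard, hrej⟩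
  obtain ⟨f, hf0, hf, hz⟩ := tree_poly T z (lt_of_le_of_lt (by
    exact_mod_cast Nat.pow_le_pow_right (by norm_num) hT) hrej)
  refine ⟨f, hf0, hf.mono ?_, hcard.trans ?_⟩
  · simp only [eval_mul, eval_ofNat]
    exact Nat.mul_le_mul_left _ hT
  · apply Nat.mul_le_mul_left
    apply card_le_card
    intro k hk
    rw [mem_filter] at hk ⊢
    exact ⟨hk.1, hz _ hk.2⟩

/-- A dense family of finite sets. -/
theorem dense_trees [CharZero K] (A : ℕ → Set ℕ) (q : Polynomial ℕ)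
    (hq : ∀ᶠ n in Filter.atTop, 2 ^ n ≤ q.eval n *
      ((range (2 ^ n)).filter fun k : ℕ => k ∈ A n).card)
    (h : Solvable K fun n => firstIn K n {k | k < 2 ^ n ∧ k ∈ A n}) :
    ∃ p q : Polynomial ℕ, ∀ᶠ n in Filter.atTop, ∃ (T : CTree K n 0)
    (z : Fin n → K), T.depth ≤ p.eval n ∧
    2 ^ n ≤ q.eval n * ((range (2 ^ n)).filter fun k : ℕ => setFirst z (k : K) ∈ T.lang).card ∧
    ((4 ^ p.eval n : ℕ) : ℕ∞) < Set.encard {y | setFirst z y ∉ T.lang} := by
  obtain ⟨p, hp⟩ := h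
  refine ⟨p, q, ?_⟩
  filter_upwards [hq, Filter.eventually_ge_atTop 1] with n hn hn1
  obtain ⟨T, hT, hL⟩ := hp n hn1
  have hmem : ∀ y : K, setFirst (fun _ => 0) y ∈ T.lang ↔
      ∃ k : ℕ, (k < 2 ^ n ∧ k ∈ A n) ∧ y = (k : K) := by
    intro y
    rw [hL]
    simp only [firstIn, Set.mem_ofPred_eq, setFirst]
    constructor
    · rintro ⟨i, hi, k, hk, hx⟩
      simp only [hi, if_true] at hx
      exact ⟨k, hk, hx⟩
    · rintro ⟨k, hk, hx⟩
      exact ⟨⟨0, by omega⟩, rfl, k, hk, by simpa using hx⟩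
  refine ⟨T, fun _ => 0, hT, hn.trans ?_, ?_⟩
  · apply Nat.mul_le_mul_left
    apply card_le_card
    intro k hk
    rw [mem_filter] at hk ⊢
    exact ⟨hk.1, (hmem _).2 ⟨k, ⟨mem_range.1 hk.1, hk.2⟩, rfl⟩⟩
  · have hfin : {y : K | setFirst (fun _ : Fin n => 0) y ∈ T.lang}.Finite := by
      apply Set.Finite.subset ((range (2 ^ n)).image fun k : ℕ => (k : K)).finite_toSet
      intro y hy
      obtain ⟨k, hk, rfl⟩ := (hmem y).1 hy
      simp only [coe_image, Set.mem_image, mem_coe, mem_range]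
      exact ⟨k, hk.1, rfl⟩
    have : Infinite K := CharZero.infinite K
    have hinf : {y : K | setFirst (fun _ : Fin n => 0) y ∉ T.lang}.Infinite := by
      have := hfin.infinite_compl
      exact this
    rw [hinf.encard_eq]
    exact ENat.natCast_lt_top _

theorem grid_trees [CharZero K]
    (h : ∀ A : (n : ℕ) → Set (Fin n → ℕ),
      Solvable K fun n => {x | ∃ s ∈ A n, (∀ i, s i < 2 ^ n) ∧ ∀ i, x i = (s i : K)}) :
    ∃ p q : Polynomial ℕ, ∀ᶠ n in Filter.atTop, ∃ (T : CTree K n 0)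
    (z : Fin n → K), T.depth ≤ p.eval n ∧
    2 ^ n ≤ q.eval n * ((range (2 ^ n)).filter fun k : ℕ => setFirst z (k : K) ∈ T.lang).card ∧
    ((4 ^ p.eval n : ℕ) : ℕ∞) < Set.encard {y | setFirst z y ∉ T.lang} := by
  obtain ⟨p, hp⟩ := h (fun n => {s | ∀ i : Fin n, i.1 ≠ 0 → s i = 0})
  refine ⟨p, 1, ?_⟩
  filter_upwards [Filter.eventually_ge_atTop 1] with n hn1
  obtain ⟨T, hT, hL⟩ := hp n hn1
  have hmem : ∀ y : K, setFirst (fun _ => 0) y ∈ T.lang ↔ ∃ k : ℕ, k < 2 ^ n ∧ y = (k : K) := by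
    intro y
    rw [hL]
    simp only [Set.mem_ofPred_eq, setFirst]
    constructor
    · rintro ⟨s, hs, hb, hx⟩
      have := hx ⟨0, by omega⟩
      simp only [if_true] at this
      exact ⟨s ⟨0, by omega⟩, hb _, this⟩
    · rintro ⟨k, hk, hx⟩
      refine ⟨fun i => if i.1 = 0 then k else 0, ?_, ?_, ?_⟩
      · intro i hi; simp [hi]
      · intro i
        by_cases hi : i.1 = 0
        · simp only [hi, if_true]; exact hk
        · simp only [hi, if_false]; positivity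
      · intro i
        by_cases hi : i.1 = 0
        · simp only [hi, if_true]; exact hx
        · simp only [hi, if_false]; simp
  refine ⟨T, fun _ => 0, hT, ?_, ?_⟩
  · have : ((range (2 ^ n)).filter fun k : ℕ =>
        setFirst (fun _ : Fin n => 0) (k : K) ∈ T.lang) = range (2 ^ n) := by
      apply filter_true_of_mem
      intro k hk
      exact (hmem _).2 ⟨k, mem_range.1 hk, rfl⟩
    rw [this]
    simp
  · have hfin : {y : K | setFirst (fun _ : Fin n => 0) y ∈ T.lang}.Finite := by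
      apply Set.Finite.subset ((range (2 ^ n)).image fun k : ℕ => (k : K)).finite_toSet
      intro y hy
      obtain ⟨k, hk, rfl⟩ := (hmem y).1 hy
      simp only [coe_image, Set.mem_image, mem_coe, mem_range]
      exact ⟨k, hk, rfl⟩
    have : Infinite K := CharZero.infinite K
    have hinf : {y : K | setFirst (fun _ : Fin n => 0) y ∉ T.lang}.Infinite := by
      have := hfin.infinite_compl
      exact this
    rw [hinf.encard_eq]
    exact ENat.natCast_lt_top _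

/-- From one tree to a polynomial. -/
theorem tree_first [CharZero K] {n D : ℕ} (hn : 1 ≤ n) (T : CTree K n 0) (hT : T.depth ≤ D)
    (hL : T.lang = TwentyQ K n) : ∃ f : K[X], f ≠ 0 ∧ Easy (2 * D) f ∧
      ∀ k : ℕ, k < 2 ^ n → f.eval (k : K) = 0 := by
  have hmem : ∀ y : K, setFirst (fun _ => 0) y ∈ T.lang ↔ ∃ k : ℕ, k < 2 ^ n ∧ y = (k : K) := by
    intro y
    rw [hL]
    simp only [TwentyQ, firstIn, Set.mem_ofPred_eq, setFirst]
    constructor
    · rintro ⟨i, hi, k, hk, hx⟩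
      simp only [hi, if_true] at hx
      exact ⟨k, hk, hx⟩
    · rintro ⟨k, hk, hx⟩
      exact ⟨⟨0, by omega⟩, rfl, k, hk, by simpa using hx⟩
  have hfin : {y : K | setFirst (fun _ : Fin n => 0) y ∈ T.lang}.Finite := by
    apply Set.Finite.subset ((range (2 ^ n)).image fun k : ℕ => (k : K)).finite_toSet
    intro y hy
    obtain ⟨k, hk, rfl⟩ := (hmem y).1 hy
    simp only [coe_image, Set.mem_image, mem_coe, mem_range]
    exact ⟨k, hk, rfl⟩
  have : Infinite K := CharZero.infinite K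
  have hinf : {y : K | setFirst (fun _ : Fin n => 0) y ∉ T.lang}.Infinite := by
    have := hfin.infinite_compl
    exact this
  obtain ⟨f, hf0, hf, hz⟩ := tree_poly T (fun _ => 0) (by
    rw [hinf.encard_eq]
    exact ENat.natCast_lt_top _)
  exact ⟨f, hf0, hf.mono (by omega), fun k hk => hz _ ((hmem _).2 ⟨k, hk, rfl⟩)⟩

/-- Twenty Questions as a dense family. -/
theorem TQ_full [CharZero K] (h : Solvable K (TwentyQ K)) : Full K := by
  apply dense_full
  apply trees_poly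
  apply dense_trees (fun _ => Set.univ) 1
  · filter_upwards with n
    simp
  · have e : (fun n => firstIn K n {k | k < 2 ^ n ∧ k ∈ (Set.univ : Set ℕ)}) = TwentyQ K := by
      funext n
      simp [TwentyQ]
    rw [e]
    exact h

end

/-- `x₁ ∈ A` is recognised by a computation tree over `ℂ` with `n` inputs and depth at most `d`. -/
def Rec (n d : ℕ) (A : Finset ℕ) : Prop :=
  ∃ T : CTree ℂ n 0, T.depth ≤ d ∧ T.lang = firstIn ℂ n {k | k ∈ A}

theorem Rec.poly {n d : ℕ} (hn : 1 ≤ n) {A : Finset ℕ} (h : Rec n d A) :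
    ∃ f : ℂ[X], f ≠ 0 ∧ Easy (2 * d) f ∧ ∀ k ∈ A, f.eval (k : ℂ) = 0 := by
  obtain ⟨T, hT, hL⟩ := h
  have hmem : ∀ y : ℂ, setFirst (fun _ => 0) y ∈ T.lang ↔ ∃ k ∈ A, y = (k : ℂ) := by
    intro y
    rw [hL]
    simp only [firstIn, Set.mem_ofPred_eq, setFirst]
    constructor
    · rintro ⟨i, hi, k, hk, hx⟩
      simp only [hi, if_true] at hx
      exact ⟨k, hk, hx⟩
    · rintro ⟨k, hk, hx⟩
      exact ⟨⟨0, by omega⟩, rfl, k, hk, by simpa using hx⟩
  have hfin : {y : ℂ | setFirst (fun _ : Fin n => 0) y ∈ T.lang}.Finite := by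
    apply Set.Finite.subset (A.image fun k : ℕ => (k : ℂ)).finite_toSet
    intro y hy
    obtain ⟨k, hk, rfl⟩ := (hmem y).1 hy
    simp only [coe_image, Set.mem_image, mem_coe]
    exact ⟨k, hk, rfl⟩
  have hinf : {y : ℂ | setFirst (fun _ : Fin n => 0) y ∉ T.lang}.Infinite := by
    have := hfin.infinite_compl
    exact this
  obtain ⟨f, hf0, hf, hz⟩ := tree_poly T (fun _ => 0) (by
    rw [hinf.encard_eq]
    exact ENat.natCast_lt_top _)
  exact ⟨f, hf0, hf.mono (by omega), fun k hk => hz _ ((hmem _).2 ⟨k, hk, rfl⟩)⟩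

/-- Many sets of superpolynomial size. -/
theorem sets_poly (M : ℕ → ℕ) (hM : ∀ n, M n ≤ 2 ^ n)
    (hsup : ∀ q : Polynomial ℕ, ∀ᶠ n in Filter.atTop, q.eval n < M n)
    (h : ∃ p r : Polynomial ℕ, ∀ᶠ n in Filter.atTop, (2 ^ n).choose (M n) ≤ 2 ^ r.eval n *
      ((powersetCard (M n) (range (2 ^ n))).filter fun A => Rec n (p.eval n) A).card) :
    ∃ p q : Polynomial ℕ, ∀ᶠ n in Filter.atTop, ∃ f : ℂ[X], f ≠ 0 ∧ Easy (p.eval n) f ∧
      2 ^ n ≤ q.eval n * ((range (2 ^ n)).filter fun k : ℕ => f.eval (k : ℂ) = 0).card := by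
  obtain ⟨p, r, h⟩ := h
  refine ⟨2 * p, 2, ?_⟩
  filter_upwards [h, hsup (r + (X + 2 * p + 3) * (3 * ((2 * p + 1) * (2 * p + 2)))),
    Filter.eventually_ge_atTop 1] with n hn hn2 hn1
  have e : (2 * p : Polynomial ℕ).eval n = 2 * p.eval n := by simp
  have e2 : (r + (X + 2 * p + 3) * (3 * ((2 * p + 1) * (2 * p + 2))) : Polynomial ℕ).eval n =
      r.eval n + (n + 2 * p.eval n + 3) * (3 * ((2 * p.eval n + 1) * (2 * p.eval n + 2))) := by
    simp
  rw [e2] at hn2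
  obtain ⟨f, hf0, hf, hc⟩ := many_sets n (2 * p.eval n) (M n) (r.eval n) hn1 (hM n) hn2 _
    (fun A hA => ⟨(mem_filter.1 hA).1, (mem_filter.1 hA).2.poly hn1⟩) hn
  refine ⟨f, hf0, ?_, ?_⟩
  · rw [e]; exact hf
  · simpa [rts] using hc

theorem full_sets (h : Full ℂ) (M : ℕ → ℕ) : ∃ p r : Polynomial ℕ, ∀ᶠ n in Filter.atTop,
    (2 ^ n).choose (M n) ≤ 2 ^ r.eval n *
      ((powersetCard (M n) (range (2 ^ n))).filter fun A => Rec n (p.eval n) A).card := by
  obtain ⟨p, hp⟩ := h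
  refine ⟨2 + 2048 * X ^ 2 * (p + 3) ^ 2, 0, ?_⟩
  filter_upwards [Filter.eventually_ge_atTop 1] with n hn
  obtain ⟨f, hf0, hf, hz⟩ := hp n hn
  have e : (powersetCard (M n) (range (2 ^ n))).filter
      (fun A => Rec n ((2 + 2048 * X ^ 2 * (p + 3) ^ 2 : Polynomial ℕ).eval n) A) =
      powersetCard (M n) (range (2 ^ n)) := by
    apply filter_true_of_mem
    intro A hA
    obtain ⟨T, hT, hL⟩ := first_tree hn f hf0 hf hz (A : Set ℕ)
    refine ⟨T, hT.trans (by simp), ?_⟩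
    rw [hL]
    congr 1
    ext k
    simp only [Set.mem_ofPred_eq, mem_coe]
    constructor
    · rintro ⟨_, h⟩; exact h
    · intro hk
      exact ⟨mem_range.1 ((mem_powersetCard.1 hA).1 hk), hk⟩
  rw [e, card_powersetCard, card_range]
  simp

theorem full_real_complex (h : Full ℝ) : Full ℂ := by
  obtain ⟨p, hp⟩ := h
  refine ⟨p, fun n hn => ?_⟩
  obtain ⟨f, hf0, hf, hz⟩ := hp n hn
  refine ⟨f.map Complex.ofRealHom, ?_, hf.map _, fun k hk => ?_⟩
  · rw [Ne, Polynomial.map_eq_zero]; exact hf0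
  · have h1 : ((k : ℕ) : ℂ) = Complex.ofRealHom (k : ℝ) := by simp
    rw [h1, eval_map, eval₂_at_apply, hz k hk, map_zero]

theorem full_complex_real (h : Full ℂ) : Full ℝ := by
  obtain ⟨p, hp⟩ := h
  refine ⟨6 * p + 6, fun n hn => ?_⟩
  obtain ⟨f, hf0, hf, hz⟩ := hp n hn
  obtain ⟨u, v, hu, hv, he⟩ := easy_re_im hf
  have hroot : ∀ k : ℕ, k < 2 ^ n → u.eval (k : ℝ) = 0 ∧ v.eval (k : ℝ) = 0 := by
    intro k hk
    have h1 := hz k hk
    have h2 : ((k : ℕ) : ℂ) = Complex.ofRealHom (k : ℝ) := by simp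
    rw [he, eval_add, eval_mul, eval_C, h2, eval_map, eval₂_at_apply, eval_map,
      eval₂_at_apply] at h1
    have h3 := congrArg Complex.re h1
    have h4 := congrArg Complex.im h1
    simp at h3 h4
    exact ⟨h3, h4⟩
  have hE : (6 * p + 6 : Polynomial ℕ).eval n = 6 * p.eval n + 6 := by simp
  rw [hE]
  by_cases hu0 : u = 0
  · have hv0 : v ≠ 0 := by
      intro hv0
      apply hf0
      rw [he, hu0, hv0]
      simp
    exact ⟨v, hv0, hv, fun k hk => (hroot k hk).2⟩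
  · exact ⟨u, hu0, hu, fun k hk => (hroot k hk).1⟩

end Pool.Agent.TQ
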